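import Pool.Agent.W_cd7020_h81c.AWd
import Pool.Agent.W_cd7020_h81b.CoreB

/-!
# The core of a block (with weights and protected vertices)
-/

set_option autoImplicit false

namespace Pool.Agent.W_cd7020_h81c

open Finset Pool.Agent.W_cd7020_h81 Pool.Agent.W_cd7020_h81b

variable {V κ : Type*} [DecidableEq V] [DecidableEq κ] [Fintype V]

/-- The numerical estimate. -/
theorem ACore_num (n c x₀ xX y : ℕ) (k d a e : ℝ) (hn : 0 < n) (hk : 0 < k)
    (hc : 8 ≤ c) (hd : 4 * n * d ≤ k * c)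
    (hx₀ : 8 * a ^ 2 * (n : ℝ) ^ 2 ≤ x₀ * k ^ 2 * c) (hx : 0 < xX) (hy : c ≤ 2 * y)
    (hm : k / (n : ℝ) * ((xX : ℝ) * (y : ℝ)) - a * Real.sqrt ((xX : ℝ) * (y : ℝ)) ≤ e)
    (he : e ≤ d * xX) : xX ≤ x₀ := by
  have hnr : (0 : ℝ) < n := by exact_mod_cast hn
  have hcr : (8 : ℝ) ≤ c := by exact_mod_cast hc
  have hyr : (c : ℝ) ≤ 2 * y := by exact_mod_cast hy
  have hxr : (0 : ℝ) < xX := by exact_mod_cast hx
  have hy0 : (0 : ℝ) < y := by linarith
  set A : ℝ := (xX : ℝ) * y with hA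
  have hA0 : 0 < A := mul_pos hxr hy0
  set s : ℝ := Real.sqrt A with hs
  have hs0 : 0 < s := Real.sqrt_pos.2 hA0
  have hsA : s * s = A := Real.mul_self_sqrt hA0.le
  have h2 : k * A ≤ 2 * n * (a * s) := by
    have h3 : k / n * A - a * s ≤ d * xX := hm.trans he
    have h4 : (n : ℝ) * (k / n * A - a * s) ≤ n * (d * xX) :=
      mul_le_mul_of_nonneg_left h3 hnr.le
    have h5 : (n : ℝ) * (k / n * A - a * s) = k * A - n * (a * s) := by
      field_simp
    have h6 : 2 * (n * (d * (xX : ℝ))) ≤ k * A := by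
      have h7 : 4 * (n : ℝ) * d ≤ k * (2 * y) :=
        hd.trans (mul_le_mul_of_nonneg_left hyr hk.le)
      have h8 := mul_le_mul_of_nonneg_right h7 hxr.le
      rw [hA]
      have e1 : 4 * (n : ℝ) * d * xX = 2 * (2 * (n * (d * (xX : ℝ)))) := by ring
      have e2 : k * (2 * (y : ℝ)) * xX = 2 * (k * ((xX : ℝ) * y)) := by ring
      rw [e1, e2] at h8
      linarith
    rw [h5] at h4
    linarith
  have h3 : k * s ≤ 2 * n * a := by
    have h4 : k * s * s ≤ 2 * n * a * s := by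
      rw [mul_assoc, hsA]
      linarith
    exact le_of_mul_le_mul_right h4 hs0
  have h4 : k ^ 2 * A ≤ 4 * (n : ℝ) ^ 2 * a ^ 2 := by
    have h5 : (k * s) ^ 2 ≤ (2 * n * a) ^ 2 := by
      apply pow_le_pow_left₀ _ h3
      positivity
    have h6 : (k * s) ^ 2 = k ^ 2 * A := by
      rw [← hsA]
      ring
    rw [h6] at h5
    linarith [h5, (by ring : (2 * (n : ℝ) * a) ^ 2 = 4 * (n : ℝ) ^ 2 * a ^ 2)]
  have h5 : (xX : ℝ) * (k ^ 2 * c) ≤ x₀ * (k ^ 2 * c) := by
    have h6 : (xX : ℝ) * (k ^ 2 * c) ≤ 2 * (k ^ 2 * A) := by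
      rw [hA]
      have h7 := mul_le_mul_of_nonneg_left hyr (by positivity : (0 : ℝ) ≤ xX * k ^ 2)
      have e1 : (xX : ℝ) * k ^ 2 * c = xX * (k ^ 2 * c) := by ring
      have e2 : (xX : ℝ) * k ^ 2 * (2 * y) = 2 * (k ^ 2 * (xX * y)) := by ring
      rw [e1, e2] at h7
      exact h7
    linarith
  have h6 : (xX : ℝ) ≤ x₀ := le_of_mul_le_mul_right h5 (by positivity)
  exact_mod_cast h6

/-- Adapt `core_exists` (file `W_cd7020_h81b/CoreB.lean`). Let `c = C.length`. If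
`∑ x ∈ X, wd x (coreY C X \ Z) ≤ d |X|` and `1 ≤ |X| ≤ x₀ + 1`, then `|coreY C X \ Z| ≥ c / 2`
(`coreY_card`, `hc`), and by the lower mixing bound
`k/n |X| |coreY \ Z| - a √(|X| |coreY \ Z|) ≤ d |X| ≤ k/(2n) |X| |coreY \ Z|`, so
`|X| ≤ 8 a² n² / (k² c) ≤ x₀` (compare `CoreB_num`). Take `X` of maximal cardinality among the sets
with `|X| ≤ x₀ + 1` and `∑ x ∈ X, wd x (coreY C X \ Z) ≤ d |X|` (the empty set is one). Then
`|X| ≤ x₀`, and if some `x ∉ X` had weight less than `d` to `coreY C X \ Z`, then `insert x X` would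
be another such set, because `coreY` gets smaller. -/
theorem coreZ_exists (col : Sym2 V → κ) (ω : κ → ℝ) (hω0 : ∀ k, 0 ≤ ω k) (k a : ℝ) (ha : 0 ≤ a)
    (hk : 0 < k) (hL : LMix col ω k a) (C : List V) (hC : C.Nodup) (Z : Finset V) (d : ℝ)
    (x₀ : ℕ) (hc : 4 * x₀ + 2 * Z.card + 8 ≤ C.length)
    (hd : 4 * Fintype.card V * d ≤ k * C.length)
    (hx₀ : 8 * a ^ 2 * (Fintype.card V : ℝ) ^ 2 ≤ x₀ * k ^ 2 * C.length) :
    ∃ X : Finset V, X.card ≤ x₀ ∧ ∀ x, x ∉ X → d ≤ wd col ω x (coreY C X \ Z) := by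
  classical
  let S : Finset (Finset V) := univ.filter
    (fun X => X.card ≤ x₀ + 1 ∧ ∑ x ∈ X, wd col ω x (coreY C X \ Z) ≤ d * X.card)
  have hS : S.Nonempty := by
    refine ⟨∅, mem_filter.2 ⟨mem_univ _, by simp, by simp⟩⟩
  obtain ⟨X, hX, hmax⟩ := exists_max_image S card hS
  obtain ⟨-, hX1, hX2⟩ := mem_filter.1 hX
  have hXx : X.card ≤ x₀ := by
    rcases Nat.eq_zero_or_pos X.card with h0 | h0
    · omega
    · have hcY := coreY_card C hC X
      have hcZ : (coreY C X).card ≤ (coreY C X \ Z).card + Z.card := by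
        have h1 := Finset.card_le_card (Finset.subset_union_left (s₁ := coreY C X) (s₂ := Z))
        rw [← Finset.sdiff_union_self_eq_union] at h1
        exact h1.trans (Finset.card_union_le _ _)
      have hn : 0 < Fintype.card V := by
        obtain ⟨v, _⟩ := card_pos.1 h0
        exact Fintype.card_pos_iff.2 ⟨v⟩
      exact ACore_num (Fintype.card V) C.length x₀ X.card (coreY C X \ Z).card k d a
        (∑ x ∈ X, wd col ω x (coreY C X \ Z)) hn hk (by omega) hd hx₀ h0 (by omega)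
        (hL X (coreY C X \ Z)) hX2
  refine ⟨X, hXx, fun x hx => ?_⟩
  by_contra hlt
  rw [not_le] at hlt
  have hmem : insert x X ∈ S := by
    refine mem_filter.2 ⟨mem_univ _, ?_, ?_⟩
    · rw [card_insert_of_notMem hx]
      omega
    · have hsub : coreY C (insert x X) \ Z ⊆ coreY C X \ Z :=
        Finset.sdiff_subset_sdiff (CoreB_sub C X x) (Finset.Subset.refl _)
      rw [Finset.sum_insert hx, card_insert_of_notMem hx]
      have h1 : wd col ω x (coreY C (insert x X) \ Z) ≤ wd col ω x (coreY C X \ Z) :=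
        wd_mono col ω ω hω0 (fun _ => le_rfl) x _ _ hsub
      have h2 : ∑ y ∈ X, wd col ω y (coreY C (insert x X) \ Z) ≤
          ∑ y ∈ X, wd col ω y (coreY C X \ Z) :=
        Finset.sum_le_sum fun y _ => wd_mono col ω ω hω0 (fun _ => le_rfl) y _ _ hsub
      push_cast
      linarith
  have h2 := hmax _ hmem
  rw [card_insert_of_notMem hx] at h2
  omega

end Pool.Agent.W_cd7020_h81c
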