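import Pool.Agent.W_cd7020_h81c.AWd

/-!
# An edge between two large sets of ends
-/

set_option autoImplicit false

namespace Pool.Agent.W_cd7020_h81c

open Finset Pool.Agent.W_cd7020_h81 Pool.Agent.W_cd7020_h81b

variable {V κ : Type*} [DecidableEq V] [DecidableEq κ] [Fintype V]

omit [Fintype V] in
theorem AMix_card (col : Sym2 V → κ) (hcol : Proper col) (x : V) (Y : Finset V) (G : Finset κ) :
    (Y.filter (fun y => y ≠ x ∧ col s(x, y) ∈ G)).card ≤ G.card := by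
  apply Finset.card_le_card_of_injOn (fun y => col s(x, y))
  · intro y hy
    have hy' := (Finset.mem_filter.mp (Finset.mem_coe.mp hy)).2.2
    exact Finset.mem_coe.mpr hy'
  · intro y hy z hz hyz
    have hy' := (Finset.mem_filter.mp (Finset.mem_coe.mp hy)).2.1
    have hz' := (Finset.mem_filter.mp (Finset.mem_coe.mp hz)).2.1
    by_contra hne
    exact hcol x y z hy'.symm hz'.symm hne hyz

theorem AMix_num {n k a β d t₂ t₃ s j S : ℝ} (hn : 0 < n) (hk : 0 < k) (hd : 0 < d)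
    (had : 16 * a ≤ d) (hβ : β * n ≤ 2 * k) (h2 : d * n ≤ 4 * k * t₂) (h3 : d * n ≤ 4 * k * t₃)
    (hs0 : 0 ≤ s) (hs : s ^ 2 = t₂ * t₃) (hj0 : 0 ≤ j) (hj : 96 * j * k ≤ d * n)
    (hL : k / n * (t₂ * t₃) - a * s ≤ S) (hS : S ≤ β * (3 * j * t₂ + j * t₃)) : False := by
  have hdn : 0 < d * n := mul_pos hd hn
  have ht2 : 0 < t₂ := by
    by_contra h
    have : 4 * k * t₂ ≤ 0 := by nlinarith
    linarith
  have ht3 : 0 < t₃ := by
    by_contra h
    have : 4 * k * t₃ ≤ 0 := by nlinarith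
    linarith
  have hj2 : 24 * j ≤ t₂ := by
    have : 4 * k * (24 * j) ≤ 4 * k * t₂ := by linarith
    exact le_of_mul_le_mul_left this (by positivity)
  have hj3 : 24 * j ≤ t₃ := by
    have : 4 * k * (24 * j) ≤ 4 * k * t₃ := by linarith
    exact le_of_mul_le_mul_left this (by positivity)
  have hP : 0 < t₂ * t₃ := mul_pos ht2 ht3
  -- multiply everything by `n`
  have e1 : k * (t₂ * t₃) - a * s * n ≤ β * n * (3 * j * t₂ + j * t₃) := by
    have h := hL.trans hS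
    have h' := mul_le_mul_of_nonneg_right h hn.le
    have e : (k / n * (t₂ * t₃) - a * s) * n = k * (t₂ * t₃) - a * s * n := by
      field_simp
    rw [e] at h'
    linarith
  have e2 : 3 * j * t₂ + j * t₃ ≤ t₂ * t₃ / 6 := by
    have h1 : 24 * j * t₂ ≤ t₃ * t₂ := mul_le_mul_of_nonneg_right hj3 ht2.le
    have h2 : 24 * j * t₃ ≤ t₂ * t₃ := mul_le_mul_of_nonneg_right hj2 ht3.le
    linarith
  have e3 : β * n * (3 * j * t₂ + j * t₃) ≤ 2 * k * (t₂ * t₃ / 6) := by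
    have h0 : 0 ≤ 3 * j * t₂ + j * t₃ := by positivity
    calc β * n * (3 * j * t₂ + j * t₃) ≤ 2 * k * (3 * j * t₂ + j * t₃) :=
          mul_le_mul_of_nonneg_right hβ h0
      _ ≤ 2 * k * (t₂ * t₃ / 6) := mul_le_mul_of_nonneg_left e2 (by positivity)
  -- the square root
  have e4 : d * n ≤ 4 * k * s := by
    have h1 : (d * n) ^ 2 ≤ (4 * k * s) ^ 2 := by
      have : (d * n) * (d * n) ≤ (4 * k * t₂) * (4 * k * t₃) :=
        mul_le_mul h2 h3 hdn.le (by positivity)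
      have e : (4 * k * s) ^ 2 = 16 * k ^ 2 * s ^ 2 := by ring
      rw [e, hs]
      nlinarith
    exact le_of_sq_le_sq h1 (by positivity)
  have e5 : a * s * n ≤ k * (t₂ * t₃) / 4 := by
    have h1 : 16 * a * (s * n) ≤ d * (s * n) := mul_le_mul_of_nonneg_right had (by positivity)
    have h2 : d * n * s ≤ 4 * k * s * s := mul_le_mul_of_nonneg_right e4 hs0
    have h3 : 4 * k * s * s = 4 * k * (t₂ * t₃) := by
      rw [← hs]
      ring
    linarith
  have h6 : 0 < k * (t₂ * t₃) := mul_pos hk hP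
  linarith

/-- There is an edge between `T₂` and `T₃` in a colour of `B`, or in a colour of `K` which is not in
the sets `G x`, `G' y` of forbidden colours. Otherwise all the weight between `T₂` and `T₃` comes from
pairs with a colour in `K ∩ G x` (at most `3 j` for every `x`) or in `K ∩ G' y` (at most `j` for every
`y`), so it is at most `β (3 j |T₂| + j |T₃|)` (`wd_pw`; properness). With `β ≤ 2 k / n` and
`|T₂|, |T₃| ≥ d n / (4 k) ≥ 24 j` this is at most `(1/2) (k/n) |T₂| |T₃|` (indeed `(1/4 + 1/12)`), and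
`a √(|T₂| |T₃|) < (1/2) (k/n) |T₂| |T₃|` since `√(|T₂| |T₃|) ≥ d n / (4 k)` and `8 a < d`;
contradiction to `LMix`. -/
theorem mixZ (col : Sym2 V → κ) (hcol : Proper col) (B K : Finset κ) (hBK : Disjoint B K)
    (β k a : ℝ) (hk : 0 < k) (ha : 0 ≤ a) (hβ0 : 0 ≤ β) (hβ : β * Fintype.card V ≤ 2 * k)
    (hL : LMix col (pw B K β) k a) (T₂ T₃ : Finset V) (d : ℝ) (hd : 0 < d) (had : 16 * a ≤ d)
    (hT₂ : d * Fintype.card V ≤ 4 * k * T₂.card) (hT₃ : d * Fintype.card V ≤ 4 * k * T₃.card)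
    (j : ℕ) (hj : 96 * j * k ≤ d * Fintype.card V) (hn : 0 < Fintype.card V)
    (G G' : V → Finset κ) (hG : ∀ x ∈ T₂, (G x).card ≤ 3 * j) (hG' : ∀ y ∈ T₃, (G' y).card ≤ j) :
    ∃ x ∈ T₂, ∃ y ∈ T₃, x ≠ y ∧
      (col s(x, y) ∈ B ∨ (col s(x, y) ∈ K ∧ col s(x, y) ∉ G x ∧ col s(x, y) ∉ G' y)) := by
  by_contra hcon
  have hno : ∀ x ∈ T₂, ∀ y ∈ T₃, y ≠ x →
      col s(x, y) ∉ B ∧ (col s(x, y) ∈ K → col s(x, y) ∈ G x ∨ col s(x, y) ∈ G' y) := by
    intro x hx y hy hxy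
    refine ⟨fun hB => hcon ⟨x, hx, y, hy, hxy.symm, Or.inl hB⟩, fun hK => ?_⟩
    by_contra hG
    rw [not_or] at hG
    exact hcon ⟨x, hx, y, hy, hxy.symm, Or.inr ⟨hK, hG.1, hG.2⟩⟩
  have h1 : ∀ x ∈ T₂, wd col (pw B K β) x T₃ ≤
      β * ((3 * j : ℕ) + ((T₃.filter (fun y => y ≠ x ∧ col s(x, y) ∈ G' y)).card : ℝ)) := by
    intro x hx
    rw [wd_pw col B K β hBK]
    have h2 : (T₃.filter (fun y => y ≠ x ∧ col s(x, y) ∈ B)).card = 0 := by
      rw [Finset.card_eq_zero, Finset.filter_eq_empty_iff]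
      intro y hy hyx
      exact (hno x hx y hy hyx.1).1 hyx.2
    rw [h2, Nat.cast_zero, zero_add]
    apply mul_le_mul_of_nonneg_left _ hβ0
    have h3 : T₃.filter (fun y => y ≠ x ∧ col s(x, y) ∈ K) ⊆
        T₃.filter (fun y => y ≠ x ∧ col s(x, y) ∈ G x) ∪
          T₃.filter (fun y => y ≠ x ∧ col s(x, y) ∈ G' y) := by
      intro y hy
      rw [Finset.mem_filter] at hy
      rw [Finset.mem_union, Finset.mem_filter, Finset.mem_filter]
      rcases (hno x hx y hy.1 hy.2.1).2 hy.2.2 with h | h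
      · exact Or.inl ⟨hy.1, hy.2.1, h⟩
      · exact Or.inr ⟨hy.1, hy.2.1, h⟩
    have h4 := (Finset.card_le_card h3).trans (Finset.card_union_le _ _)
    have h5 := (AMix_card col hcol x T₃ (G x)).trans (hG x hx)
    have h6 : (T₃.filter (fun y => y ≠ x ∧ col s(x, y) ∈ K)).card ≤
        3 * j + (T₃.filter (fun y => y ≠ x ∧ col s(x, y) ∈ G' y)).card := by
      omega
    exact_mod_cast h6
  have h7 : ∑ x ∈ T₂, (T₃.filter (fun y => y ≠ x ∧ col s(x, y) ∈ G' y)).card ≤ T₃.card * j := by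
    have h8 : ∑ x ∈ T₂, (T₃.filter (fun y => y ≠ x ∧ col s(x, y) ∈ G' y)).card =
        ∑ y ∈ T₃, (T₂.filter (fun x => x ≠ y ∧ col s(y, x) ∈ G' y)).card := by
      simp only [Finset.card_filter]
      rw [Finset.sum_comm]
      refine Finset.sum_congr rfl fun y _ => Finset.sum_congr rfl fun x _ => ?_
      rw [Sym2.eq_swap (a := x) (b := y)]
      exact if_congr (and_congr_left' ne_comm) rfl rfl
    rw [h8]
    calc ∑ y ∈ T₃, (T₂.filter (fun x => x ≠ y ∧ col s(y, x) ∈ G' y)).card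
        ≤ ∑ _y ∈ T₃, j := Finset.sum_le_sum fun y hy =>
          (AMix_card col hcol y T₂ (G' y)).trans (hG' y hy)
      _ = T₃.card * j := by rw [Finset.sum_const, smul_eq_mul]
  have h9 : ∑ x ∈ T₂, wd col (pw B K β) x T₃ ≤ β * (3 * (j : ℝ) * T₂.card + j * T₃.card) := by
    refine (Finset.sum_le_sum h1).trans ?_
    rw [← Finset.mul_sum]
    apply mul_le_mul_of_nonneg_left _ hβ0
    rw [Finset.sum_add_distrib, Finset.sum_const, nsmul_eq_mul]
    have h10 : ((∑ x ∈ T₂, (T₃.filter (fun y => y ≠ x ∧ col s(x, y) ∈ G' y)).card : ℕ) : ℝ) ≤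
        ((T₃.card * j : ℕ) : ℝ) := by exact_mod_cast h7
    push_cast at h10 ⊢
    linarith
  have hnR : (0 : ℝ) < Fintype.card V := by exact_mod_cast hn
  exact AMix_num hnR hk hd had hβ hT₂ hT₃ (Real.sqrt_nonneg _)
    (Real.sq_sqrt (by positivity)) (Nat.cast_nonneg j) hj (hL T₂ T₃) h9

end Pool.Agent.W_cd7020_h81c
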