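import Pool.Agent.W_cd7020_h81c.ARotX
import Pool.Agent.W_cd7020_h81b.CoreA

/-!
# Rotations inside a block (with weights and protected vertices)
-/

set_option autoImplicit false

namespace Pool.Agent.W_cd7020_h81c

open Finset Pool.Agent.W_cd7020_h81 Pool.Agent.W_cd7020_h81b

variable {V κ : Type*} [DecidableEq V] [DecidableEq κ] [Fintype V]

/-- Adapt `seg_expand` (file `W_cd7020_h81b/ClosG.lean`): `rotZ_expand` with `P₀ = A ++ C`,
`Gd = univ \ X`, `Y = coreY C X \ Z` (`coreY_nbr`, `coreY_sub`). -/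
theorem segZ_expand (col : Sym2 V → κ) (hcol : Proper col) (B : Finset κ) (ω : κ → ℝ)
    (hω0 : ∀ k, 0 ≤ ω k) (hω1 : ∀ k, ω k ≤ 1) (hωB : ∀ k, k ∉ B → ω k = 0) (Z : Finset V)
    (k a : ℝ) (ha : 0 ≤ a) (hB : UMix col ω k a) (A C : List V) (hP : (A ++ C).Nodup)
    (F₀ : Finset (Sym2 V)) (hF : ∀ e ∈ F₀, e ∈ pe (A ++ C)) (hFr : Rb col F₀)
    (hFB : ∀ e ∈ F₀, col e ∉ B) (J : ℕ) (d : ℝ) (hJ : Fintype.card V ≤ 2 ^ J) (X : Finset V)
    (hX : ∀ x, x ∉ X → d + 2 * J ≤ wd col ω x (coreY C X \ Z))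
    (x₀ : V) (hx₀ : (A ++ C).head? = some x₀) (hx₀X : x₀ ∉ X)
    (hd0 : 0 < d) (had : 4 * a ≤ d) (hdk : d ≤ k) :
    SucZ col B Z (A ++ C) F₀ J ∨
      ∃ T : Finset V, d * Fintype.card V ≤ 4 * k * T.card ∧
        ∀ x ∈ T, ∃ P F, RotZ col B Z (A ++ C) F₀ J P F ∧ P.head? = some x := by
  rcases rotZ_expand col hcol B ω hω0 hω1 hωB Z k a ha hB (A ++ C) F₀ hP hF hFr hFB J d hJ
    (Finset.univ \ X) (coreY C X \ Z) x₀ hx₀ (by simp [hx₀X])
    (fun y hy => List.mem_append_right A (coreY_sub C X y (Finset.mem_sdiff.1 hy).1))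
    (fun y hy => (Finset.mem_sdiff.1 hy).2)
    (fun y hy x hxy => by
      have h := coreY_nbr A C [] (by rw [List.append_nil]; exact hP) X y x
        (Finset.mem_sdiff.1 hy).1 (by rw [List.append_nil]; exact hxy)
      simp [h])
    (fun x hx => hX x (by simpa using hx)) hd0 had hdk with h | ⟨T, hT, h⟩
  · exact Or.inl h
  · exact Or.inr ⟨T, hT, fun x hx => (h x hx).2⟩

end Pool.Agent.W_cd7020_h81c
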