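import Pool.Agent.W_cd7020_h81c.AComb
import Pool.Agent.W_cd7020_h81c.AMix
import Pool.Agent.W_cd7020_h81c.ASeg

/-!
# The last part of the closing lemma (with weights and protected vertices)
-/

set_option autoImplicit false

namespace Pool.Agent.W_cd7020_h81c

open Finset Pool.Agent.W_cd7020_h81 Pool.Agent.W_cd7020_h81b

variable {V κ : Type*} [DecidableEq V] [DecidableEq κ] [Fintype V]

/-- Adapt `close_end` (file `W_cd7020_h81b/ClosE.lean`), with `segZ_expand` for the colour sets
`B 2 ∪ K₂` (weight `pw (B 2) K₂ β`) and `B 3 ∪ K₃`, `combZ`, and `mixZ` for the last edge: `G x` is the set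
of the colours in `K` of the edges of `F` (at most `2 J`) and of the new edges of the chosen change
for `x` (at most `J`), `G' y` the set of the colours of the new edges of the chosen change for `y`
(at most `J`). The colour of the last edge is in `B 4`, or in `K` and different from the colours of
all edges of the combined set `E₀` (its elements are in `F`, `F₁' \ onl`, `F₂' \ onl`). The upper mixing
bounds for `pw (B 2) K₂ β` follow from `UMix_mono`, `pw_mono`. -/
theorem close_endZ (col : Sym2 V → κ) (hcol : Proper col) (U : Finset V) (E : Finset (Sym2 V))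
    (B : Fin 5 → Finset κ) (K K₂ K₃ : Finset κ) (β k a : ℝ) (hk : 0 < k) (ha : 0 ≤ a)
    (hβ0 : 0 ≤ β) (hβ1 : β ≤ 1) (hβ : β * Fintype.card V ≤ 2 * k)
    (hU2 : UMix col (pw (B 2) K β) k a) (hU3 : UMix col (pw (B 3) K β) k a)
    (hL4 : LMix col (pw (B 4) K β) k a) (Z : Finset V) (J : ℕ) (d : ℝ)
    (hJ1 : 1 ≤ J) (hJ : Fintype.card V ≤ 2 ^ J) (hBE : ∀ i, ∀ e ∈ E, col e ∉ B i)
    (hKE : ∀ e ∈ E, col e ∉ K)
    (hBB : ∀ i j, i ≠ j → Disjoint (B i) (B j)) (hBK : ∀ i, Disjoint (B i) K)
    (hK₂ : K₂ ⊆ K) (hK₃ : K₃ ⊆ K) (hKK : Disjoint K₂ K₃)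
    (F : Finset (Sym2 V)) (A C M C' D : List V) (hC : C ≠ []) (hC' : C' ≠ [])
    (hnd : ((A ++ C) ++ M ++ (C' ++ D)).Nodup)
    (hU : ∀ v, v ∈ (A ++ C) ++ M ++ (C' ++ D) ↔ v ∈ U)
    (hF : ∀ e ∈ F, e ∈ pe ((A ++ C) ++ M ++ (C' ++ D))) (hFE : F.card = E.card)
    (hFr : Rb col F) (hFc : ∀ e ∈ F, e ∉ E → (col e ∈ B 0 ∨ col e ∈ B 1) ∨ col e ∈ K)
    (hF0 : ∀ i, (F.filter (fun e => col e ∈ B i)).card ≤ J)
    (hFK : (F.filter (fun e => col e ∈ K)).card ≤ 2 * J)
    (hFK₂ : ∀ e ∈ F, col e ∉ K₂) (hFK₃ : ∀ e ∈ F, col e ∉ K₃)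
    (hkeep : ∀ e ∈ E, e ∉ F → ∃ y ∈ e, y ∉ Z)
    (X₂ X₃ : Finset V)
    (hX₂ : ∀ x, x ∉ X₂ → d + 2 * J ≤ wd col (pw (B 2) K₂ β) x (coreY C X₂ \ Z))
    (hX₃ : ∀ x, x ∉ X₃ → d + 2 * J ≤ wd col (pw (B 3) K₃ β) x (coreY C' X₃ \ Z))
    (x₀ y₀ : V) (hx₀ : (A ++ C).head? = some x₀) (hx₀X : x₀ ∉ X₂)
    (hy₀ : (C' ++ D).getLast? = some y₀) (hy₀X : y₀ ∉ X₃)
    (hd0 : 0 < d) (had : 16 * a ≤ d) (hdk : d ≤ k)
    (hdJ : 96 * J * k ≤ d * Fintype.card V) :
    GoalZ col U E B K Z J := by
  have hdis : ∀ i j, i ≠ j → ∀ c, c ∈ B i → c ∉ B j := fun i j hij c hc =>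
    Finset.disjoint_left.1 (hBB i j hij) hc
  have hdK : ∀ i, ∀ c, c ∈ K → c ∉ B i := fun i c hc hc' =>
    Finset.disjoint_left.1 (hBK i) hc' hc
  have hFB : ∀ i, i ≠ 0 → i ≠ 1 → ∀ e ∈ F, col e ∉ B i := by
    intro i hi0 hi1 e he hce
    by_cases heE : e ∈ E
    · exact hBE i e heE hce
    · rcases hFc e he heE with (h | h) | h
      · exact hdis 0 i (Ne.symm hi0) _ h hce
      · exact hdis 1 i (Ne.symm hi1) _ h hce
      · exact hdK i _ h hce
  have h₁ : A ++ C ≠ [] := by
    intro h
    exact hC (List.append_eq_nil_iff.1 h).2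
  have h₂ : C' ++ D ≠ [] := by
    intro h
    exact hC' (List.append_eq_nil_iff.1 h).1
  have hnd1 : (A ++ C).Nodup := (List.nodup_append.1 (List.nodup_append.1 hnd).1).1
  have hnd2 : (C' ++ D).Nodup := (List.nodup_append.1 hnd).2.1
  have hrev : D.reverse ++ C'.reverse = (C' ++ D).reverse := List.reverse_append.symm
  have hr₁ : Rb col (onl (A ++ C) F) := fun e he e' he' h =>
    hFr e (Finset.mem_filter.1 he).1 e' (Finset.mem_filter.1 he').1 h
  have hr₂ : Rb col (onl (C' ++ D) F) := fun e he e' he' h =>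
    hFr e (Finset.mem_filter.1 he).1 e' (Finset.mem_filter.1 he').1 h
  have hz : ∀ G : Finset (Sym2 V), (G \ G).card ≤ J := by
    intro G
    rw [Finset.sdiff_self, Finset.card_empty]
    exact Nat.zero_le _
  have hF2 : ∀ e ∈ onl (A ++ C) F, col e ∉ B 2 ∪ K₂ := by
    intro e he
    rw [Finset.mem_union, not_or]
    exact ⟨hFB 2 (by decide) (by decide) e (Finset.mem_filter.1 he).1,
      hFK₂ e (Finset.mem_filter.1 he).1⟩
  have hF3 : ∀ e ∈ onl (C' ++ D) F, col e ∉ B 3 ∪ K₃ := by
    intro e he
    rw [Finset.mem_union, not_or]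
    exact ⟨hFB 3 (by decide) (by decide) e (Finset.mem_filter.1 he).1,
      hFK₃ e (Finset.mem_filter.1 he).1⟩
  have hM2 : UMix col (pw (B 2) K₂ β) k a :=
    UMix_mono col (pw (B 2) K β) (pw (B 2) K₂ β) (pw_nonneg _ _ β hβ0)
      (pw_mono (B 2) (B 2) K K₂ β hβ0 hβ1 (Finset.Subset.refl _) hK₂) k a a le_rfl hU2
  have hM3 : UMix col (pw (B 3) K₃ β) k a :=
    UMix_mono col (pw (B 3) K β) (pw (B 3) K₃ β) (pw_nonneg _ _ β hβ0)
      (pw_mono (B 3) (B 3) K K₃ β hβ0 hβ1 (Finset.Subset.refl _) hK₃) k a a le_rfl hU3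
  have had4 : 4 * a ≤ d := by linarith
  have key := combZ col U E B K K₂ K₃ Z J hBE hKE hBB hBK hK₂ hK₃ hKK F (A ++ C) M (C' ++ D) h₁ h₂
    hnd hU hF hFr hFc hF0 hFK hFK₂ hFK₃ hkeep
  rcases segZ_expand col hcol (B 2 ∪ K₂) (pw (B 2) K₂ β) (pw_nonneg _ _ β hβ0)
    (pw_le_one _ _ β hβ1) (pw_zero _ _ β) Z k a ha hM2 A C hnd1 (onl (A ++ C) F)
    (fun e he => (Finset.mem_filter.1 he).2) hr₁ hF2 J d hJ X₂ hX₂ x₀ hx₀
    hx₀X hd0 had4 hdk with hs | ⟨T₂, hT₂, hR₂⟩
  · obtain ⟨P', F', hp, hl, hre, hca, hrb, hco, hfe, hkp⟩ := hs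
    obtain ⟨E₀, k1, k2, k3, k4, k5, -, -, k8, k9, k10, k11⟩ := key P' (C' ++ D) F'
      (onl (C' ++ D) F) hp
      (List.Perm.refl _) hl rfl hre (fun e he => (Finset.mem_filter.1 he).2) hrb hr₂ hco
      (fun e he he' => absurd he he') hfe (hz _) hkp (fun e he he' => absurd he he')
    exact ⟨E₀, ⟨_, k1, k2, fun e he => pe_sub_ce _ _ (k3 e he)⟩, by omega, k5, k8, k9,
      by omega, k11⟩
  · rcases segZ_expand col hcol (B 3 ∪ K₃) (pw (B 3) K₃ β) (pw_nonneg _ _ β hβ0)
      (pw_le_one _ _ β hβ1) (pw_zero _ _ β) Z k a ha hM3 D.reverse C'.reverse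
      (by rw [hrev]; exact List.nodup_reverse.2 hnd2) (onl (C' ++ D) F)
      (fun e he => by
        rw [hrev, mem_pe_reverse]
        exact (Finset.mem_filter.1 he).2) hr₂ hF3 J d hJ X₃
      (by rw [coreY_reverse]; exact hX₃) y₀
      (by rw [hrev, List.head?_reverse]; exact hy₀)
      hy₀X hd0 had4 hdk with hs | ⟨T₃, hT₃, hR₃⟩
    · obtain ⟨P', F', hp, hl, hre, hca, hrb, hco, hfe, hkp⟩ := hs
      rw [hrev] at hp hl
      obtain ⟨E₀, k1, k2, k3, k4, k5, -, -, k8, k9, k10, k11⟩ := key (A ++ C) P'.reverse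
        (onl (A ++ C) F) F'
        (List.Perm.refl _) ((List.reverse_perm P').trans (hp.trans (List.reverse_perm _))) rfl
        (by rw [List.head?_reverse, hl, List.getLast?_reverse])
        (fun e he => (Finset.mem_filter.1 he).2)
        (fun e he => (mem_pe_reverse P' e).2 (hre e he)) hr₁ hrb
        (fun e he he' => absurd he he') hco (hz _) hfe (fun e he he' => absurd he he') hkp
      exact ⟨E₀, ⟨_, k1, k2, fun e he => pe_sub_ce _ _ (k3 e he)⟩, by omega, k5, k8, k9,
        by omega, k11⟩
    · have hn : 0 < Fintype.card V := Fintype.card_pos_iff.2 ⟨x₀⟩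
      choose! Pf Ff hPF using hR₂
      choose! Rf Gf hRG using hR₃
      obtain ⟨G, hG⟩ : ∃ G : V → Finset κ, G = fun x =>
          (F.filter (fun e => col e ∈ K)).image col ∪ (Ff x \ onl (A ++ C) F).image col :=
        ⟨_, rfl⟩
      obtain ⟨G', hG'⟩ : ∃ G' : V → Finset κ, G' = fun y =>
          (Gf y \ onl (C' ++ D) F).image col := ⟨_, rfl⟩
      have hGc : ∀ x ∈ T₂, (G x).card ≤ 3 * J := by
        intro x hx
        rw [hG]
        refine (Finset.card_union_le _ _).trans ?_
        have h5 := (Finset.card_image_le (s := F.filter (fun e => col e ∈ K)) (f := col)).trans hFK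
        have h6 := (Finset.card_image_le (s := Ff x \ onl (A ++ C) F) (f := col)).trans
          (hPF x hx).1.rot.few
        omega
      have hGc' : ∀ y ∈ T₃, (G' y).card ≤ J := by
        intro y hy
        rw [hG']
        exact (Finset.card_image_le (s := Gf y \ onl (C' ++ D) F) (f := col)).trans
          (hRG y hy).1.rot.few
      obtain ⟨x, hx, y, hy, hxy, hcxy⟩ := mixZ col hcol (B 4) K (hBK 4) β k a hk ha hβ0 hβ hL4
        T₂ T₃ d hd0 had hT₂ hT₃ J hdJ hn G G' hGc hGc'
      obtain ⟨hPZ, hxh⟩ := hPF x hx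
      obtain ⟨hRZ, hyh⟩ := hRG y hy
      obtain ⟨P', hP'e⟩ : ∃ P', P' = Pf x := ⟨_, rfl⟩
      obtain ⟨F', hF'e⟩ : ∃ F', F' = Ff x := ⟨_, rfl⟩
      obtain ⟨R, hRe⟩ : ∃ R, R = Rf y := ⟨_, rfl⟩
      obtain ⟨H', hH'e⟩ : ∃ H', H' = Gf y := ⟨_, rfl⟩
      rw [← hP'e, ← hF'e] at hPZ
      rw [← hP'e] at hxh
      rw [← hRe, ← hH'e] at hRZ
      rw [← hRe] at hyh
      have hP' := hPZ.rot
      have hR := hRZ.rot
      have hRp := hR.perm
      have hRl := hR.last
      rw [hrev] at hRp hRl
      obtain ⟨E₀, k1, k2, k3, k4, k5, k6, k7, k8, k9, k10, k11⟩ := key P' R.reverse F' H' hP'.perm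
        ((List.reverse_perm R).trans (hRp.trans (List.reverse_perm _))) hP'.last
        (by rw [List.head?_reverse, hRl, List.getLast?_reverse])
        hP'.real (fun e he => (mem_pe_reverse R e).2 (hR.real e he)) hP'.rb hR.rb
        hP'.cols hR.cols hP'.few hR.few hPZ.keep hRZ.keep
      have hcyx : col s(y, x) ∈ B 4 ∨ (col s(y, x) ∈ K ∧ col s(y, x) ∉ G x ∧
          col s(y, x) ∉ G' y) := by
        rw [Sym2.eq_swap]
        exact hcxy
      have hno : ∀ e ∈ E₀, col e ≠ col s(y, x) := by
        intro e he hee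
        rcases hcyx with h | ⟨h5, h6, h7⟩
        · exact k6 e he (by rw [hee]; exact h)
        · rcases k7 e he with h | h | h
          · apply h6
            rw [hG, ← hee]
            rw [← hee] at h5
            exact Finset.mem_union_left _
              (Finset.mem_image_of_mem col (Finset.mem_filter.2 ⟨h, h5⟩))
          · apply h6
            rw [hG, ← hee]
            rw [hF'e] at h
            exact Finset.mem_union_right _ (Finset.mem_image_of_mem col h)
          · apply h7
            rw [hG', ← hee]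
            rw [hH'e] at h
            exact Finset.mem_image_of_mem col h
      have hnot : s(y, x) ∉ E₀ := fun h => hno _ h rfl
      have hne : P' ++ M ++ R.reverse ≠ [] := by
        intro h
        have h5 := (List.append_eq_nil_iff.1 (List.append_eq_nil_iff.1 h).1).1
        rw [h5] at hxh
        exact absurd hxh (by simp)
      have hPne : P' ≠ [] := by
        rintro h
        rw [h] at hxh
        exact absurd hxh (by simp)
      have hRne : R ≠ [] := by
        rintro h
        rw [h] at hyh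
        exact absurd hyh (by simp)
      have hhead : (P' ++ M ++ R.reverse).head hne = x := by
        have h5 : (P' ++ M ++ R.reverse).head? = some x := by
          rw [List.append_assoc, List.head?_append, hxh]
          rfl
        rw [List.head?_eq_some_head hne] at h5
        exact Option.some_injective _ h5
      have hlast : (P' ++ M ++ R.reverse).getLast hne = y := by
        have h5 : (P' ++ M ++ R.reverse).getLast? = some y := by
          rw [List.getLast?_append, List.getLast?_reverse, hyh]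
          rfl
        rw [List.getLast?_eq_some_getLast hne] at h5
        exact Option.some_injective _ h5
      refine ⟨insert s(y, x) E₀, ⟨P' ++ M ++ R.reverse, k1, k2, ?_⟩, ?_, ?_, ?_, ?_, ?_, ?_⟩
      · intro e he
        rw [ce_eq _ hne, hhead, hlast, List.mem_append, List.mem_singleton]
        rcases Finset.mem_insert.1 he with h | h
        · exact Or.inr h
        · exact Or.inl (k3 e h)
      · rw [Finset.card_insert_of_notMem hnot]
        have h5 := hP'.card
        have h6 := hR.card
        omega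
      · intro e he e' he' hee
        rcases Finset.mem_insert.1 he with h | h
        · rcases Finset.mem_insert.1 he' with h' | h'
          · rw [h, h']
          · exact absurd (by rw [← hee, h]) (hno e' h')
        · rcases Finset.mem_insert.1 he' with h' | h'
          · exact absurd (by rw [hee, h']) (hno e h)
          · exact k5 e h e' h' hee
      · intro e he heE
        rcases Finset.mem_insert.1 he with h | h
        · rw [h]
          rcases hcyx with h5 | h5
          · exact Or.inl ⟨4, h5⟩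
          · exact Or.inr h5.1
        · exact k8 e h heE
      · intro i
        by_cases hi : col s(y, x) ∈ B i
        · have hi4 : i = 4 := by
            rcases hcyx with h5 | h5
            · by_contra hne4
              exact hdis i 4 hne4 _ hi h5
            · exact absurd hi (hdK i _ h5.1)
          subst hi4
          have h5 : (insert s(y, x) E₀).filter (fun e => col e ∈ B 4) ⊆ {s(y, x)} := by
            intro e he
            rw [Finset.mem_filter] at he
            rw [Finset.mem_singleton]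
            rcases Finset.mem_insert.1 he.1 with h | h
            · exact h
            · exact absurd he.2 (k6 e h)
          refine (Finset.card_le_card h5).trans ?_
          rw [Finset.card_singleton]
          exact hJ1
        · refine (Finset.card_le_card ?_).trans (k9 i)
          intro e he
          rw [Finset.mem_filter] at he
          rcases Finset.mem_insert.1 he.1 with h | h
          · exfalso
            rw [h] at he
            exact hi he.2
          · exact Finset.mem_filter.2 ⟨h, he.2⟩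
      · have h5 : (insert s(y, x) E₀).filter (fun e => col e ∈ K) ⊆
            insert s(y, x) (E₀.filter (fun e => col e ∈ K)) := by
          intro e he
          rw [Finset.mem_filter] at he
          rcases Finset.mem_insert.1 he.1 with h | h
          · exact Finset.mem_insert.2 (Or.inl h)
          · exact Finset.mem_insert_of_mem (Finset.mem_filter.2 ⟨h, he.2⟩)
        have h6 := (Finset.card_le_card h5).trans (Finset.card_insert_le _ _)
        omega
      · intro e he hne'
        exact k11 e he (fun h => hne' (Finset.mem_insert_of_mem h))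

end Pool.Agent.W_cd7020_h81c
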