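import Pool.Agent.W_cd7020_h81c.AWd
import Pool.Agent.W_cd7020_h81.Union

/-!
# Splitting the free colours
-/

set_option autoImplicit false

namespace Pool.Agent.W_cd7020_h81c

open Finset Pool.Agent.W_cd7020_h81 Pool.Agent.W_cd7020_h81b

variable {V κ : Type*} [DecidableEq V] [DecidableEq κ] [Fintype V]

/-- the colours of `K` on the edges between `x` and `Y` -/
def ASplit_S (col : Sym2 V → κ) (K : Finset κ) (Y : Finset V) (x : V) : Finset ↥K :=
  univ.filter (fun k : ↥K => ∃ y ∈ Y, y ≠ x ∧ col s(x, y) = k)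

omit [Fintype V] in
theorem ASplit_le (col : Sym2 V → κ) (hcol : Proper col) (K : Finset κ) (Y : Finset V) (x : V) :
    (Y.filter (fun y => y ≠ x ∧ col s(x, y) ∈ K)).card ≤ (ASplit_S col K Y x).card := by
  have h1 : ((Y.filter (fun y => y ≠ x ∧ col s(x, y) ∈ K)).image (fun y => col s(x, y))).card =
      (Y.filter (fun y => y ≠ x ∧ col s(x, y) ∈ K)).card := by
    refine Finset.card_image_of_injOn ?_
    intro y hy z hz h
    have hy' := (Finset.mem_filter.1 hy).2.1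
    have hz' := (Finset.mem_filter.1 hz).2.1
    by_contra hne
    exact hcol x y z hy'.symm hz'.symm hne h
  have h2 : ((Y.filter (fun y => y ≠ x ∧ col s(x, y) ∈ K)).image (fun y => col s(x, y))) ⊆
      (ASplit_S col K Y x).map (Function.Embedding.subtype _) := by
    intro k hk
    obtain ⟨y, hy, rfl⟩ := Finset.mem_image.1 hk
    obtain ⟨hy1, hy2, hy3⟩ := Finset.mem_filter.1 hy
    refine Finset.mem_map.2 ⟨⟨col s(x, y), hy3⟩, ?_, rfl⟩
    exact Finset.mem_filter.2 ⟨Finset.mem_univ _, y, hy1, hy2, rfl⟩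
  rw [← h1, ← Finset.card_map (Function.Embedding.subtype _)]
  exact Finset.card_le_card h2

/-- the colours of `K` with value `g` -/
def ASplit_K (K : Finset κ) (f : ↥K → Fin 4) (g : Fin 4) : Finset κ :=
  (univ.filter (fun k : ↥K => f k = g)).map (Function.Embedding.subtype _)

omit [Fintype V] in
theorem ASplit_ge (col : Sym2 V → κ) (K : Finset κ) (Y : Finset V) (x : V) (f : ↥K → Fin 4)
    (g : Fin 4) : ((ASplit_S col K Y x).filter (fun k => f k = g)).card ≤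
      (Y.filter (fun y => y ≠ x ∧ col s(x, y) ∈ ASplit_K K f g)).card := by
  have h2 : ((ASplit_S col K Y x).filter (fun k => f k = g)).map (Function.Embedding.subtype _) ⊆
      (Y.filter (fun y => y ≠ x ∧ col s(x, y) ∈ ASplit_K K f g)).image
        (fun y => col s(x, y)) := by
    intro k hk
    obtain ⟨c, hc, rfl⟩ := Finset.mem_map.1 hk
    obtain ⟨hc1, hc2⟩ := Finset.mem_filter.1 hc
    obtain ⟨y, hy1, hy2, hy3⟩ := (Finset.mem_filter.1 hc1).2
    refine Finset.mem_image.2 ⟨y, Finset.mem_filter.2 ⟨hy1, hy2, ?_⟩, hy3⟩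
    exact Finset.mem_map.2 ⟨c, Finset.mem_filter.2 ⟨Finset.mem_univ _, hc2⟩, hy3.symm⟩
  rw [← Finset.card_map (Function.Embedding.subtype _)]
  exact (Finset.card_le_card h2).trans Finset.card_image_le

omit [DecidableEq κ] in
theorem ASplit_sub (K : Finset κ) (f : ↥K → Fin 4) (g : Fin 4) : ASplit_K K f g ⊆ K := by
  intro k hk
  obtain ⟨c, _, rfl⟩ := Finset.mem_map.1 hk
  exact c.2

omit [DecidableEq κ] in
theorem ASplit_disj (K : Finset κ) (f : ↥K → Fin 4) (g g' : Fin 4) (h : g ≠ g') :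
    Disjoint (ASplit_K K f g) (ASplit_K K f g') := by
  rw [Finset.disjoint_left]
  intro k hk hk'
  obtain ⟨c, hc, rfl⟩ := Finset.mem_map.1 hk
  obtain ⟨c', hc', he⟩ := Finset.mem_map.1 hk'
  have h1 : c' = c := Subtype.ext he
  rw [h1] at hc'
  exact h ((Finset.mem_filter.1 hc).2.symm.trans (Finset.mem_filter.1 hc').2)

/-- Split `K` into two parts such that every vertex with at least `l` edges of colours in `K` to
`Y₂` has at least `l / 16` edges of colours in `K₂` to `Y₂`, and the same for `K₃`, `Y₃`. This is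
`union_bound` (file `W_cd7020_h81/Union.lean`) for the type `↥K` (a `Fintype`), `P = 4`, the family
`L₁` of the sets `{k ∈ K | k = col s(x, y) for some y ∈ Y₂, y ≠ x}` and the same for `Y₃`, as far as they
have at least `l` elements (different `y` have different colours by properness; at most
`2 n ≤ 2 ^ (J + 1)` sets), `L₂ = W = ∅`, `l₁ = l`, `s₁ = l / 16` rounded up to `(l + 15) / 16`:
`2 ^ (J + 1) * 16 * 2 ^ ((l + 15) / 16) ≤ 2 ^ (l / 8)` since `l / 8 ≥ l / 16 + J + 6 - ..`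
(check: `l ≥ 32 (J + 8)`). `K₂`, `K₃` are the preimages of `0` and `1`. -/
theorem split_pools (col : Sym2 V → κ) (hcol : Proper col) (K : Finset κ) (Y₂ Y₃ : Finset V)
    (J : ℕ) (hJ : Fintype.card V ≤ 2 ^ J) (l : ℕ) (hl : 32 * (J + 8) ≤ l) :
    ∃ K₂ K₃ : Finset κ, K₂ ⊆ K ∧ K₃ ⊆ K ∧ Disjoint K₂ K₃ ∧
      (∀ x, l ≤ (Y₂.filter (fun y => y ≠ x ∧ col s(x, y) ∈ K)).card →
        l ≤ 16 * (Y₂.filter (fun y => y ≠ x ∧ col s(x, y) ∈ K₂)).card) ∧
      ∀ x, l ≤ (Y₃.filter (fun y => y ≠ x ∧ col s(x, y) ∈ K)).card →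
        l ≤ 16 * (Y₃.filter (fun y => y ≠ x ∧ col s(x, y) ∈ K₃)).card := by
  classical
  obtain ⟨F, hF⟩ : ∃ F : Finset (Finset ↥K), F =
      (univ.image (ASplit_S col K Y₂) ∪ univ.image (ASplit_S col K Y₃)).filter
        (fun S => l ≤ S.card) := ⟨_, rfl⟩
  have hFc : F.card ≤ 2 ^ (J + 1) := by
    have h1 : F.card ≤ (univ.image (ASplit_S col K Y₂) ∪ univ.image (ASplit_S col K Y₃)).card := by
      rw [hF]
      exact Finset.card_filter_le _ _
    have h2 := Finset.card_union_le (univ.image (ASplit_S col K Y₂))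
      (univ.image (ASplit_S col K Y₃))
    have h3 : (univ.image (ASplit_S col K Y₂)).card ≤ Fintype.card V := by
      refine Finset.card_image_le.trans ?_
      rw [Finset.card_univ]
    have h4 : (univ.image (ASplit_S col K Y₃)).card ≤ Fintype.card V := by
      refine Finset.card_image_le.trans ?_
      rw [Finset.card_univ]
    have h5 : 2 ^ (J + 1) = 2 ^ J + 2 ^ J := by ring
    omega
  have hpow : F.card * 16 * 2 ^ ((l + 15) / 16) ≤ 2 ^ (l / (2 * 4)) := by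
    calc F.card * 16 * 2 ^ ((l + 15) / 16) ≤ 2 ^ (J + 1) * 2 ^ 4 * 2 ^ ((l + 15) / 16) :=
          Nat.mul_le_mul_right _ (Nat.mul_le_mul hFc (by norm_num))
      _ = 2 ^ (J + 1 + 4 + (l + 15) / 16) := by rw [pow_add 2 (J + 1 + 4), pow_add 2 (J + 1) 4]
      _ ≤ 2 ^ (l / (2 * 4)) := Nat.pow_le_pow_right (by norm_num) (by omega)
  obtain ⟨f, hf⟩ := union_bound (κ := ↥K) 4 le_rfl F ∅ ∅ l ((l + 15) / 16) 0 0 0 0
    (fun S hS => by
      rw [hF] at hS
      exact (Finset.mem_filter.1 hS).2)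
    (fun S hS => absurd hS (Finset.notMem_empty S))
    (fun S hS => absurd hS (Finset.notMem_empty S)) hpow (by simp) (by simp)
  have key : ∀ (Y : Finset V), (∀ x, ASplit_S col K Y x ∈
      univ.image (ASplit_S col K Y₂) ∪ univ.image (ASplit_S col K Y₃)) → ∀ (g : Fin 4) (x : V),
      l ≤ (Y.filter (fun y => y ≠ x ∧ col s(x, y) ∈ K)).card →
        l ≤ 16 * (Y.filter (fun y => y ≠ x ∧ col s(x, y) ∈ ASplit_K K f g)).card := by
    intro Y hY g x hx
    have h1 : l ≤ (ASplit_S col K Y x).card := hx.trans (ASplit_le col hcol K Y x)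
    have h2 : ASplit_S col K Y x ∈ F := by
      rw [hF]
      exact Finset.mem_filter.2 ⟨hY x, h1⟩
    have h3 := (hf g g.isLt).1 _ h2
    have h4 := ASplit_ge col K Y x f g
    omega
  refine ⟨ASplit_K K f 0, ASplit_K K f 1, ASplit_sub K f 0, ASplit_sub K f 1,
    ASplit_disj K f 0 1 (by decide), key Y₂ (fun x => ?_) 0, key Y₃ (fun x => ?_) 1⟩
  · exact Finset.mem_union_left _ (Finset.mem_image_of_mem _ (Finset.mem_univ x))
  · exact Finset.mem_union_right _ (Finset.mem_image_of_mem _ (Finset.mem_univ x))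

/-- The same in terms of weights. If `β = 0` take `K₂ = K₃ = ∅`. Otherwise use `split_pools` with
`l = ⌈d₀ / (2 β)⌉`; `d₀ / (2 β) ≥ 32 (J + 8)`. If the part of the weight `d₀` of `x` which comes from `B`
is at least `d₀ / 2`, fine; otherwise `β |{y ∈ Y | col s(x, y) ∈ K}| ≥ d₀ / 2`, so the number is at least
`l`, and `β l / 16 ≥ d₀ / 32` (`wd_pw`). -/
theorem split_weights (col : Sym2 V → κ) (hcol : Proper col) (B₂ B₃ K : Finset κ) (β : ℝ)
    (hβ0 : 0 ≤ β) (hB₂ : Disjoint B₂ K) (hB₃ : Disjoint B₃ K) (Y₂ Y₃ : Finset V)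
    (J : ℕ) (hJ : Fintype.card V ≤ 2 ^ J) (d₀ : ℝ) (hd₀ : 64 * β * (J + 8) ≤ d₀) :
    ∃ K₂ K₃ : Finset κ, K₂ ⊆ K ∧ K₃ ⊆ K ∧ Disjoint K₂ K₃ ∧
      (∀ x, d₀ ≤ wd col (pw B₂ K β) x Y₂ → d₀ ≤ 32 * wd col (pw B₂ K₂ β) x Y₂) ∧
      ∀ x, d₀ ≤ wd col (pw B₃ K β) x Y₃ → d₀ ≤ 32 * wd col (pw B₃ K₃ β) x Y₃ := by
  have hJ8 : (0 : ℝ) ≤ (J : ℝ) + 8 := by positivity
  have hd0 : 0 ≤ d₀ := le_trans (by positivity) hd₀
  rcases hβ0.eq_or_lt with h0 | hpos
  · refine ⟨∅, ∅, Finset.empty_subset _, Finset.empty_subset _, Finset.disjoint_empty_left _, ?_, ?_⟩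
    · intro x hx
      rw [wd_pw col B₂ K β hB₂, ← h0, zero_mul, add_zero] at hx
      rw [wd_pw col B₂ ∅ β (Finset.disjoint_empty_right _), ← h0, zero_mul, add_zero]
      have : (0 : ℝ) ≤ ((Y₂.filter (fun y => y ≠ x ∧ col s(x, y) ∈ B₂)).card : ℝ) :=
        Nat.cast_nonneg _
      linarith
    · intro x hx
      rw [wd_pw col B₃ K β hB₃, ← h0, zero_mul, add_zero] at hx
      rw [wd_pw col B₃ ∅ β (Finset.disjoint_empty_right _), ← h0, zero_mul, add_zero]
      have : (0 : ℝ) ≤ ((Y₃.filter (fun y => y ≠ x ∧ col s(x, y) ∈ B₃)).card : ℝ) :=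
        Nat.cast_nonneg _
      linarith
  have hl : 32 * (J + 8) ≤ ⌈d₀ / (2 * β)⌉₊ := by
    have h1 : ((32 * (J + 8) : ℕ) : ℝ) ≤ d₀ / (2 * β) := by
      rw [le_div_iff₀ (by positivity)]
      push_cast
      linarith
    exact_mod_cast h1.trans (Nat.le_ceil _)
  obtain ⟨K₂, K₃, h2, h3, h23, hY2, hY3⟩ := split_pools col hcol K Y₂ Y₃ J hJ _ hl
  have key : ∀ (B K' : Finset κ) (Y : Finset V), Disjoint B K → K' ⊆ K →
      (∀ x, ⌈d₀ / (2 * β)⌉₊ ≤ (Y.filter (fun y => y ≠ x ∧ col s(x, y) ∈ K)).card →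
        ⌈d₀ / (2 * β)⌉₊ ≤ 16 * (Y.filter (fun y => y ≠ x ∧ col s(x, y) ∈ K')).card) →
      ∀ x, d₀ ≤ wd col (pw B K β) x Y → d₀ ≤ 32 * wd col (pw B K' β) x Y := by
    intro B K' Y hB hK hY x hx
    rw [wd_pw col B K β hB] at hx
    rw [wd_pw col B K' β (hB.mono_right hK)]
    have hY' := hY x
    generalize (Y.filter (fun y => y ≠ x ∧ col s(x, y) ∈ B)).card = b at hx ⊢
    generalize (Y.filter (fun y => y ≠ x ∧ col s(x, y) ∈ K)).card = c at hx hY'
    generalize (Y.filter (fun y => y ≠ x ∧ col s(x, y) ∈ K')).card = c' at hY' ⊢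
    have hb : (0 : ℝ) ≤ b := Nat.cast_nonneg b
    have hc' : (0 : ℝ) ≤ c' := Nat.cast_nonneg c'
    have hβc' : 0 ≤ β * c' := mul_nonneg hβ0 hc'
    rcases le_or_gt (d₀ / 2) b with hcase | hcase
    · linarith
    · have h4 : d₀ / (2 * β) ≤ c := by
        rw [div_le_iff₀ (by positivity)]
        linarith
      have h5 := hY' (Nat.ceil_le.2 h4)
      have h6 : d₀ / (2 * β) ≤ 16 * c' := (Nat.le_ceil _).trans (by exact_mod_cast h5)
      rw [div_le_iff₀ (by positivity)] at h6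
      linarith
  exact ⟨K₂, K₃, h2, h3, h23, key B₂ K₂ Y₂ hB₂ h2 hY2, key B₃ K₃ Y₃ hB₃ h3 hY3⟩

end Pool.Agent.W_cd7020_h81c
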