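import Pool.Agent.W_cd7020_h81c.ATwo
import Pool.Agent.W_cd7020_h81c.AEnd
import Pool.Agent.W_cd7020_h81c.ASplit
import Pool.Agent.W_cd7020_h81c.ACore
import Pool.Agent.W_cd7020_h81b.BlkC

/-!
# The closing lemma (with weights and protected vertices)
-/

set_option autoImplicit false

namespace Pool.Agent.W_cd7020_h81c

open Finset Pool.Agent.W_cd7020_h81 Pool.Agent.W_cd7020_h81b

variable {V κ : Type*} [DecidableEq V] [DecidableEq κ] [Fintype V]

/-- The numbers of the closing lemma. -/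
theorem AClos_num (n u z J N s x₀ : ℕ) (hJ1 : 1 ≤ J) (hJn : 10 ^ 7 * J ^ 2 ≤ n)
    (hU : n ≤ 2 * u) (hz : 40 * J * z ≤ n) (hN : N = 2 * J + 2) (hs : s = u / N)
    (hx : x₀ = n / (1000 * J)) :
    N * s ≤ u ∧ n ≤ 10 * J * s ∧ 4 * x₀ + 2 * z + 8 ≤ s ∧ n ≤ 2000 * J * x₀ ∧
      8 * (N * x₀) < n := by
  have hJ2 : J ≤ J ^ 2 := by nlinarith
  have hNpos : 0 < N := by omega
  have h1 : N * s ≤ u := by rw [hs]; exact Nat.mul_div_le u N
  have h2 : u < N * (s + 1) := by rw [hs]; exact Nat.lt_mul_div_succ u hNpos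
  have hN4 : N ≤ 4 * J := by omega
  have h3 : n ≤ 8 * J * s + 8 * J := by
    have h4 : N * (s + 1) ≤ 4 * J * (s + 1) := Nat.mul_le_mul_right _ hN4
    nlinarith
  have h5 : n ≤ 10 * J * s := by nlinarith
  have h6 : 1000 * J * x₀ ≤ n := by rw [hx]; exact Nat.mul_div_le n (1000 * J)
  have h7 : n < 1000 * J * (x₀ + 1) := by
    rw [hx]; exact Nat.lt_mul_div_succ n (by omega)
  have h8 : n ≤ 2000 * J * x₀ := by nlinarith
  have h13 : 4 * x₀ + 2 * z + 8 ≤ s := by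
    have h14 : 10 * J * (4 * x₀ + 2 * z + 8) ≤ 10 * J * s := by nlinarith
    exact Nat.le_of_mul_le_mul_left h14 (by omega)
  have h15 : 8 * (N * x₀) < n := by
    have h16 : N * x₀ ≤ 4 * J * x₀ := Nat.mul_le_mul_right _ hN4
    nlinarith
  exact ⟨h1, h5, h13, h8, h15⟩

/-- `coreZ_exists` with the numbers of the closing lemma. -/
theorem AClos_core (col : Sym2 V → κ) (ω : κ → ℝ) (hω0 : ∀ k, 0 ≤ ω k) (k a : ℝ) (ha : 0 ≤ a)
    (hk : 0 < k) (hL : LMix col ω k a) (C : List V) (hC : C.Nodup) (Z : Finset V)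
    (J s x₀ : ℕ) (hJ1 : 1 ≤ J) (hCs : C.length = s) (hak : 10 ^ 6 * J * a ≤ k)
    (h1 : Fintype.card V ≤ 10 * J * s) (h2 : 4 * x₀ + 2 * Z.card + 8 ≤ s)
    (h3 : Fintype.card V ≤ 2000 * J * x₀) :
    ∃ X : Finset V, X.card ≤ x₀ ∧ ∀ x, x ∉ X → k / (40 * J) ≤ wd col ω x (coreY C X \ Z) := by
  have hJr : (1 : ℝ) ≤ J := by exact_mod_cast hJ1
  have hJ0 : (0 : ℝ) < J := by linarith
  have e1 : (Fintype.card V : ℝ) ≤ 10 * J * s := by exact_mod_cast h1
  have e3 : (Fintype.card V : ℝ) ≤ 2000 * J * x₀ := by exact_mod_cast h3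
  refine coreZ_exists col ω hω0 k a ha hk hL C hC Z (k / (40 * J)) x₀ (by rw [hCs]; exact h2)
    ?_ ?_
  · rw [hCs]
    have e4 : 4 * (Fintype.card V : ℝ) * (k / (40 * J)) = (Fintype.card V : ℝ) * k / (10 * J) := by
      field_simp
      ring
    rw [e4, div_le_iff₀ (by positivity)]
    calc (Fintype.card V : ℝ) * k ≤ (10 * J * s) * k := mul_le_mul_of_nonneg_right e1 hk.le
      _ = k * s * (10 * J) := by ring
  · rw [hCs]
    set n : ℝ := (Fintype.card V : ℝ) with hn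
    have hn0 : 0 ≤ n := Nat.cast_nonneg _
    have hs0 : (0 : ℝ) ≤ s := Nat.cast_nonneg _
    have hx0 : (0 : ℝ) ≤ x₀ := Nat.cast_nonneg _
    have e4 : n * n ≤ (10 * J * s) * (2000 * J * x₀) := mul_le_mul e1 e3 hn0 (by positivity)
    have e5 : (10 ^ 6 * J * a) ^ 2 ≤ k ^ 2 := pow_le_pow_left₀ (by positivity) hak 2
    have e7 : 8 * a ^ 2 * n ^ 2 ≤ 160000 * (J * a) ^ 2 * (x₀ * s) := by
      have := mul_le_mul_of_nonneg_left e4 (show 0 ≤ 8 * a ^ 2 by positivity)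
      calc 8 * a ^ 2 * n ^ 2 = 8 * a ^ 2 * (n * n) := by ring
        _ ≤ 8 * a ^ 2 * ((10 * J * s) * (2000 * J * x₀)) := this
        _ = 160000 * (J * a) ^ 2 * (x₀ * s) := by ring
    have e8 : 160000 * (J * a) ^ 2 ≤ k ^ 2 := by nlinarith [sq_nonneg (J * a)]
    calc 8 * a ^ 2 * n ^ 2 ≤ 160000 * (J * a) ^ 2 * (x₀ * s) := e7
      _ ≤ k ^ 2 * (x₀ * s) := mul_le_mul_of_nonneg_right e8 (by positivity)
      _ = x₀ * k ^ 2 * s := by ring

/-- The real numbers of the closing lemma. -/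
theorem AClos_real (n k a β J : ℝ) (hJ1 : 1 ≤ J) (ha : 0 ≤ a) (hβ0 : 0 ≤ β)
    (hβ : β * n ≤ 2 * k) (hJn : 10 ^ 7 * J ^ 2 ≤ n) (hkJ : 10 ^ 5 * J ^ 2 ≤ k)
    (hak : 10 ^ 6 * J * a ≤ k) :
    0 < k ∧ 16 * J ≤ k ∧ 16 * a ≤ k ∧ k / (80 * J) + 2 * J ≤ k / (40 * J) ∧
      64 * β * (J + 8) ≤ k / (80 * J) ∧ k / (5120 * J) + 2 * J ≤ k / (80 * J) / 32 ∧
      0 < k / (5120 * J) ∧ 16 * a ≤ k / (5120 * J) ∧ k / (5120 * J) ≤ k ∧
      96 * J * k ≤ k / (5120 * J) * n := by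
  have hJ0 : 0 < J := by linarith
  have hJ2 : J ≤ J ^ 2 := by nlinarith
  have hk : 0 < k := by nlinarith
  have hJa : a ≤ J * a := by nlinarith
  refine ⟨hk, by nlinarith, by nlinarith, ?_, ?_, ?_, by positivity, ?_, ?_, ?_⟩
  · have e1 : k / (40 * J) = k / (80 * J) + k / (80 * J) := by
      field_simp
      ring
    have e2 : 2 * J ≤ k / (80 * J) := by
      rw [le_div_iff₀ (by positivity)]
      nlinarith
    linarith
  · rw [le_div_iff₀ (by positivity)]
    have e1 : β * (10 ^ 7 * J ^ 2) ≤ 2 * k := le_trans (mul_le_mul_of_nonneg_left hJn hβ0) hβ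
    have e2 : β * J ≤ β * J ^ 2 := mul_le_mul_of_nonneg_left hJ2 hβ0
    have e3 : 0 ≤ β * J ^ 2 := by positivity
    nlinarith
  · have e1 : k / (80 * J) / 32 = k / (5120 * J) + k / (5120 * J) := by
      field_simp
      ring
    have e2 : 2 * J ≤ k / (5120 * J) := by
      rw [le_div_iff₀ (by positivity)]
      nlinarith
    linarith
  · rw [le_div_iff₀ (by positivity)]
    nlinarith
  · rw [div_le_iff₀ (by positivity)]
    nlinarith
  · rw [div_mul_eq_mul_div, le_div_iff₀ (by positivity)]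
    have e1 : k * (10 ^ 7 * J ^ 2) ≤ k * n := mul_le_mul_of_nonneg_left hJn hk.le
    have e3 : 0 ≤ k * J ^ 2 := by positivity
    nlinarith

/-- The closing lemma; adapt `closing` (file `W_cd7020_h81b/Clos.lean`). `n = card V`, `N = 2 J + 2`
blocks of length `s = |U| / N ≥ n / (10 J)` in the list `Q` of `LF U E` (`Cyc.lf`), `x₀ = n / (1000 J)`,
`d₀ = k / (40 J)`, `d = k / (2560 J)`. By `coreZ_exists` (with `pw (B 2) K β` and `pw (B 3) K β`) there are for
every block `C` sets `X₂ C`, `X₃ C` with at most `x₀` elements such that all other vertices have weight at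
least `d₀` to `coreY C X \ Z` (check: `4 n d₀ ≤ k s`; `8 a² n² ≤ x₀ k² s` since `10 ^ 5 J a ≤ k`,
`x₀ ≥ n / (2000 J)`; `4 x₀ + 2 |Z| + 8 ≤ s` since `40 J |Z| ≤ n`, `10 ^ 6 J² ≤ n`). The unions over the blocks
`Bad₂`, `Bad₃` have at most `(2 J + 2) x₀ < n / 8` elements. Use `two_phasesZ`, `two_blocks`; for the two
blocks found (say `C` with `X₂ C` and `C'` with `X₃ C'`) use `split_weights` for `K' = K` without the at most
`2 J` colours of the edges of `F`, `Y₂ = coreY C X₂ \ Z`, `Y₃ = coreY C' X₃ \ Z` and `d₀ / 2` (the weights for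
`K'` are at least `d₀ - 2 J ≥ d₀ / 2` by `wd_colours`): the weights for `K₂`, `K₃` are at least
`d₀ / 64 = d ≥ ...`; so that `close_endZ` can be applied with `d / 2` in place of `d` (`d / 2 ≥ 2 J`). -/
theorem closingZ (col : Sym2 V → κ) (hcol : Proper col) (U : Finset V) (E : Finset (Sym2 V))
    (hE : Cyc U E) (hlt : E.card < U.card) (hr : Rb col E) (B : Fin 5 → Finset κ)
    (K : Finset κ) (β k a : ℝ) (ha : 0 ≤ a) (hβ0 : 0 ≤ β) (hβ1 : β ≤ 1)
    (hβ : β * Fintype.card V ≤ 2 * k)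
    (hU : ∀ i, UMix col (pw (B i) K β) k a) (hL : ∀ i, LMix col (pw (B i) K β) k a)
    (Z : Finset V) (J : ℕ) (hJ1 : 1 ≤ J) (hJ : Fintype.card V ≤ 2 ^ J)
    (hJn : 10 ^ 7 * J ^ 2 ≤ Fintype.card V) (hUn : Fintype.card V ≤ 2 * U.card)
    (hZ : 40 * J * Z.card ≤ Fintype.card V)
    (hBE : ∀ i, ∀ e ∈ E, col e ∉ B i) (hKE : ∀ e ∈ E, col e ∉ K)
    (hBB : ∀ i j, i ≠ j → Disjoint (B i) (B j)) (hBK : ∀ i, Disjoint (B i) K)
    (hdeg : ∀ i, ∀ x ∈ U, 3 / 4 * k ≤ wd col (pw (B i) K β) x (U \ Z))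
    (hkJ : 10 ^ 5 * (J : ℝ) ^ 2 ≤ k) (hak : 10 ^ 6 * J * a ≤ k) :
    GoalZ col U E B K Z J := by
  classical
  obtain ⟨hNs, h1, h2, h3, h4⟩ := AClos_num (Fintype.card V) U.card Z.card J (2 * J + 2)
    (U.card / (2 * J + 2)) (Fintype.card V / (1000 * J)) hJ1 hJn hUn hZ rfl rfl rfl
  have hJr : (1 : ℝ) ≤ J := by exact_mod_cast hJ1
  have hJnr : 10 ^ 7 * (J : ℝ) ^ 2 ≤ Fintype.card V := by exact_mod_cast hJn
  obtain ⟨hk0, hk16, hka16, r1, r2, r3, r4, r5, r6, r7⟩ := AClos_real (Fintype.card V) k a β J hJr ha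
    hβ0 hβ hJnr hkJ hak
  set N := 2 * J + 2 with hNdef
  set s := U.card / N with hsdef
  set x₀ := Fintype.card V / (1000 * J) with hx₀def
  have hJ2 : J ≤ J ^ 2 := by nlinarith
  obtain ⟨Q, hQ, hQU, hEQ⟩ := hE.lf hlt (by nlinarith)
  have hQl : Q.length = U.card := LFa_length hQ hQU
  have hs1 : 1 ≤ s := by omega
  have hne : Q ≠ [] := by
    rintro rfl
    rw [List.length_nil] at hQl
    nlinarith
  have hbl : ∀ i, i < N → (blk Q s i).length = s := fun i hi =>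
    blk_length Q s N i (by rw [hQl]; exact hNs) hi
  have hcore : ∀ j : Fin 5, ∀ i, ∃ X : Finset V, i < N → (X.card ≤ x₀ ∧ ∀ x, x ∉ X →
      k / (40 * J) ≤ wd col (pw (B j) K β) x (coreY (blk Q s i) X \ Z)) := by
    intro j i
    by_cases hi : i < N
    · obtain ⟨X, hX⟩ := AClos_core col (pw (B j) K β) (pw_nonneg (B j) K β hβ0) k a ha hk0 (hL j)
        (blk Q s i) (blk_nodup Q hQ s i) Z J s x₀ hJ1 (hbl i hi) hak h1 h2 h3
      exact ⟨X, fun _ => hX⟩
    · exact ⟨∅, fun h => absurd h hi⟩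
  choose X hX using hcore
  have hBadc : ∀ j, 8 * ((range N).biUnion (X j)).card < Fintype.card V := by
    intro j
    have e1 : ((range N).biUnion (X j)).card ≤ N * x₀ := by
      refine Finset.card_biUnion_le.trans ?_
      calc ∑ i ∈ range N, (X j i).card ≤ ∑ _i ∈ range N, x₀ :=
            Finset.sum_le_sum fun i hi => (hX j i (Finset.mem_range.1 hi)).1
        _ = N * x₀ := by rw [Finset.sum_const, Finset.card_range, smul_eq_mul]
    omega
  rcases two_phasesZ col hcol U E Q hQ hQU hne hEQ hr B K β k a ha hβ0 hβ1 hU Z J hJ1 hJ hBE hKE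
      hBB hBK hdeg hk16 hka16 ((range N).biUnion (X 2)) ((range N).biUnion (X 3)) (hBadc 2)
      (hBadc 3) with hG | hG
  · exact hG
  obtain ⟨P, F, u₀, v₀, hPQ, hFP, hFE, hFr, hFc, hF0, hFK, hlost, hkeep, hu, huB, hv, hvB⟩ := hG
  obtain ⟨i, i', hi, hi', hii, C, C', A, M, D, hC, hC', hP⟩ := two_blocks Q P hQ hPQ (2 * J) N s
    hs1 (by rw [hQl]; exact hNs) le_rfl hlost
  have hCl : C.length = s := by
    rcases hC with h | h <;> rw [h]
    · exact hbl i hi
    · rw [List.length_reverse]; exact hbl i hi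
  have hCl' : C'.length = s := by
    rcases hC' with h | h <;> rw [h]
    · exact hbl i' hi'
    · rw [List.length_reverse]; exact hbl i' hi'
  have hCne : C ≠ [] := by
    rintro rfl
    rw [List.length_nil] at hCl
    omega
  have hCne' : C' ≠ [] := by
    rintro rfl
    rw [List.length_nil] at hCl'
    omega
  have hcoreC : ∀ Z, coreY C Z = coreY (blk Q s i) Z := by
    intro Z
    rcases hC with h | h <;> rw [h]
    exact coreY_reverse _ _
  have hcoreC' : ∀ Z, coreY C' Z = coreY (blk Q s i') Z := by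
    intro Z
    rcases hC' with h | h <;> rw [h]
    exact coreY_reverse _ _
  have hu' : (A ++ C).head? = some u₀ := by
    rw [hP] at hu
    rw [List.append_assoc, List.head?_append_of_ne_nil _ (by simp [hCne])] at hu
    exact hu
  have hv' : (C' ++ D).getLast? = some v₀ := by
    rw [hP] at hv
    rw [List.getLast?_append_of_ne_nil _ (by simp [hCne'])] at hv
    exact hv
  have huX : u₀ ∉ X 2 i := fun h =>
    huB (Finset.mem_biUnion.2 ⟨i, Finset.mem_range.2 hi, h⟩)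
  have hvX : v₀ ∉ X 3 i' := fun h =>
    hvB (Finset.mem_biUnion.2 ⟨i', Finset.mem_range.2 hi', h⟩)
  -- the colours of the edges of `F` are removed from `K`
  have hK'K : K \ F.image col ⊆ K := Finset.sdiff_subset
  have hdrop : ∀ j : Fin 5, ((B j ∪ K) \ (B j ∪ (K \ F.image col))).card ≤ 2 * J := by
    intro j
    refine le_trans (Finset.card_le_card (t := (F.filter (fun e => col e ∈ K)).image col) ?_)
      (Finset.card_image_le.trans hFK)
    intro c hc
    rw [Finset.mem_sdiff, Finset.mem_union, Finset.mem_union, Finset.mem_sdiff] at hc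
    obtain ⟨hc1, hc2⟩ := hc
    push Not at hc2
    have hcB : c ∉ B j := hc2.1
    have hcK : c ∈ K := by
      rcases hc1 with h | h
      · exact absurd h hcB
      · exact h
    obtain ⟨e, he, hec⟩ := Finset.mem_image.1 (hc2.2 hcK)
    exact Finset.mem_image.2 ⟨e, Finset.mem_filter.2 ⟨he, by rw [hec]; exact hcK⟩, hec⟩
  have hwd : ∀ (j : Fin 5) (x : V) (Y : Finset V), k / (40 * J) ≤ wd col (pw (B j) K β) x Y →
      k / (80 * J) ≤ wd col (pw (B j) (K \ F.image col) β) x Y := by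
    intro j x Y h
    have e1 := wd_colours col hcol (B j) (B j) K (K \ F.image col) β hβ0 hβ1 (Finset.Subset.refl _)
      hK'K (2 * J) (hdrop j) (hBK j) x Y
    push_cast at e1
    linarith
  obtain ⟨K₂, K₃, hK₂, hK₃, hKK, hw₂, hw₃⟩ := split_weights col hcol (B 2) (B 3) (K \ F.image col) β
    hβ0 (Finset.disjoint_of_subset_right hK'K (hBK 2))
    (Finset.disjoint_of_subset_right hK'K (hBK 3)) (coreY C (X 2 i) \ Z) (coreY C' (X 3 i') \ Z)
    J hJ (k / (80 * J)) r2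
  refine close_endZ col hcol U E B K K₂ K₃ β k a hk0 ha hβ0 hβ1 hβ (hU 2) (hU 3) (hL 4) Z J
    (k / (5120 * J)) hJ1 hJ hBE hKE hBB hBK (hK₂.trans hK'K) (hK₃.trans hK'K) hKK F A C M C' D
    hCne hCne' ?_ ?_ ?_ hFE hFr hFc hF0 hFK ?_ ?_ hkeep (X 2 i) (X 3 i') ?_ ?_ u₀ v₀ hu' huX hv'
    hvX r4 r5 r6 r7
  · rw [← hP]
    exact hPQ.nodup_iff.2 hQ
  · intro v
    rw [← hP, hPQ.mem_iff]
    exact hQU v
  · intro e he
    rw [← hP]
    exact hFP e he
  · intro e he hec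
    exact (Finset.mem_sdiff.1 (hK₂ hec)).2 (Finset.mem_image_of_mem col he)
  · intro e he hec
    exact (Finset.mem_sdiff.1 (hK₃ hec)).2 (Finset.mem_image_of_mem col he)
  · intro x hx
    have e1 := hw₂ x (hwd 2 x _ (by rw [hcoreC]; exact (hX 2 i hi).2 x hx))
    linarith
  · intro x hx
    have e1 := hw₃ x (hwd 3 x _ (by rw [hcoreC']; exact (hX 3 i' hi').2 x hx))
    linarith

end Pool.Agent.W_cd7020_h81c
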