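import Pool.Agent.W_cd7020_h81c.ADefs
import Pool.Agent.W_cd7020_h81b.ClosE

/-!
# Combination of the changes at both ends
-/

set_option autoImplicit false

namespace Pool.Agent.W_cd7020_h81c

open Finset Pool.Agent.W_cd7020_h81 Pool.Agent.W_cd7020_h81b

variable {V κ : Type*} [DecidableEq V] [DecidableEq κ]

/-- Adapt `ClosE_comb` (file `W_cd7020_h81b/ClosE.lean`): `E₀ = F₁' ∪ (F \ (onl P₁ F ∪ onl P₂ F)) ∪ F₂'`,
`combine` and `combine_rb` with the colour sets `B 2 ∪ K₂` and `B 3 ∪ K₃`. Edges of `E` which are lost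
are lost in `F`, in `F₁'` or in `F₂'`. Edges with a colour in `K`: at most `2 J` in `F`, at most `J` in
each of the two other sets. -/
theorem combZ (col : Sym2 V → κ) (U : Finset V) (E : Finset (Sym2 V))
    (B : Fin 5 → Finset κ) (K K₂ K₃ : Finset κ) (Z : Finset V) (J : ℕ)
    (hBE : ∀ i, ∀ e ∈ E, col e ∉ B i) (hKE : ∀ e ∈ E, col e ∉ K)
    (hBB : ∀ i j, i ≠ j → Disjoint (B i) (B j)) (hBK : ∀ i, Disjoint (B i) K)
    (hK₂ : K₂ ⊆ K) (hK₃ : K₃ ⊆ K) (hKK : Disjoint K₂ K₃)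
    (F : Finset (Sym2 V)) (P₁ M P₂ : List V) (h₁ : P₁ ≠ []) (h₂ : P₂ ≠ [])
    (hnd : (P₁ ++ M ++ P₂).Nodup) (hU : ∀ v, v ∈ P₁ ++ M ++ P₂ ↔ v ∈ U)
    (hF : ∀ e ∈ F, e ∈ pe (P₁ ++ M ++ P₂)) (hFr : Rb col F)
    (hFc : ∀ e ∈ F, e ∉ E → (col e ∈ B 0 ∨ col e ∈ B 1) ∨ col e ∈ K)
    (hF0 : ∀ i, (F.filter (fun e => col e ∈ B i)).card ≤ J)
    (hFK : (F.filter (fun e => col e ∈ K)).card ≤ 2 * J)
    (hFK₂ : ∀ e ∈ F, col e ∉ K₂) (hFK₃ : ∀ e ∈ F, col e ∉ K₃)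
    (hkeep : ∀ e ∈ E, e ∉ F → ∃ y ∈ e, y ∉ Z)
    (P₁' P₂' : List V) (F₁' F₂' : Finset (Sym2 V)) (hp₁ : P₁'.Perm P₁) (hp₂ : P₂'.Perm P₂)
    (hl : P₁'.getLast? = P₁.getLast?) (hh : P₂'.head? = P₂.head?)
    (hF₁ : ∀ e ∈ F₁', e ∈ pe P₁') (hF₂ : ∀ e ∈ F₂', e ∈ pe P₂')
    (hr₁ : Rb col F₁') (hr₂ : Rb col F₂')
    (hc₁ : ∀ e ∈ F₁', e ∉ onl P₁ F → col e ∈ B 2 ∪ K₂)
    (hc₂ : ∀ e ∈ F₂', e ∉ onl P₂ F → col e ∈ B 3 ∪ K₃)
    (hf₁ : (F₁' \ onl P₁ F).card ≤ J) (hf₂ : (F₂' \ onl P₂ F).card ≤ J)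
    (hk₁ : ∀ e ∈ onl P₁ F, e ∉ F₁' → ∃ y ∈ e, y ∉ Z)
    (hk₂ : ∀ e ∈ onl P₂ F, e ∉ F₂' → ∃ y ∈ e, y ∉ Z) :
    ∃ E₀ : Finset (Sym2 V), (P₁' ++ M ++ P₂').Nodup ∧ (∀ v, v ∈ P₁' ++ M ++ P₂' ↔ v ∈ U) ∧
      (∀ e ∈ E₀, e ∈ pe (P₁' ++ M ++ P₂')) ∧
      E₀.card + (onl P₁ F).card + (onl P₂ F).card = F₁'.card + F.card + F₂'.card ∧
      Rb col E₀ ∧ (∀ e ∈ E₀, col e ∉ B 4) ∧
      (∀ e ∈ E₀, e ∈ F ∨ e ∈ F₁' \ onl P₁ F ∨ e ∈ F₂' \ onl P₂ F) ∧
      (∀ e ∈ E₀, e ∉ E → (∃ i, col e ∈ B i) ∨ col e ∈ K) ∧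
      (∀ i, (E₀.filter (fun e => col e ∈ B i)).card ≤ J) ∧
      (E₀.filter (fun e => col e ∈ K)).card ≤ 4 * J ∧
      ∀ e ∈ E, e ∉ E₀ → ∃ y ∈ e, y ∉ Z := by
  have hdis : ∀ i j, i ≠ j → ∀ c, c ∈ B i → c ∉ B j := fun i j hij c hc =>
    Finset.disjoint_left.1 (hBB i j hij) hc
  have hdK : ∀ i, ∀ c, c ∈ K → c ∉ B i := fun i c hc =>
    Finset.disjoint_right.1 (hBK i) hc
  have hFB : ∀ i, i ≠ 0 → i ≠ 1 → ∀ e ∈ F, col e ∉ B i := by
    intro i hi0 hi1 e he hce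
    by_cases heE : e ∈ E
    · exact hBE i e heE hce
    · rcases hFc e he heE with (h | h) | h
      · exact hdis 0 i (Ne.symm hi0) _ h hce
      · exact hdis 1 i (Ne.symm hi1) _ h hce
      · exact hdK i _ h hce
  have h2K : ∀ i, i ≠ 2 → ∀ c, c ∈ B 2 ∪ K₂ → c ∉ B i := by
    intro i hi c hc
    rcases Finset.mem_union.1 hc with h | h
    · exact hdis 2 i (Ne.symm hi) c h
    · exact hdK i c (hK₂ h)
  have h3K : ∀ i, i ≠ 3 → ∀ c, c ∈ B 3 ∪ K₃ → c ∉ B i := by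
    intro i hi c hc
    rcases Finset.mem_union.1 hc with h | h
    · exact hdis 3 i (Ne.symm hi) c h
    · exact hdK i c (hK₃ h)
  have hF2 : ∀ e ∈ F, col e ∉ B 2 ∪ K₂ := by
    intro e he h
    rcases Finset.mem_union.1 h with h | h
    · exact hFB 2 (by decide) (by decide) e he h
    · exact hFK₂ e he h
  have hF3 : ∀ e ∈ F, col e ∉ B 3 ∪ K₃ := by
    intro e he h
    rcases Finset.mem_union.1 h with h | h
    · exact hFB 3 (by decide) (by decide) e he h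
    · exact hFK₃ e he h
  have hd23 : Disjoint (B 2 ∪ K₂) (B 3 ∪ K₃) := by
    rw [Finset.disjoint_left]
    intro c hc hc'
    rcases Finset.mem_union.1 hc' with h | h
    · exact h2K 3 (by decide) c hc h
    · rcases Finset.mem_union.1 hc with h' | h'
      · exact hdK 2 c (hK₃ h) h'
      · exact Finset.disjoint_left.1 hKK h' h
  obtain ⟨c1, c2, c3⟩ := combine P₁ M P₂ P₁' P₂' F F₁' F₂' h₁ h₂ hnd hF hp₁ hp₂ hl hh hF₁ hF₂
  have c4 := combine_rb col (B 2 ∪ K₂) (B 3 ∪ K₃) P₁ P₂ F F₁' F₂' (ClosE_disj P₁ M P₂ hnd) hFr hr₁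
    hr₂ hc₁ hc₂ hF2 hF3 hd23
  obtain ⟨E₀, hE₀⟩ : ∃ E₀, E₀ = F₁' ∪ (F \ (onl P₁ F ∪ onl P₂ F)) ∪ F₂' := ⟨_, rfl⟩
  rw [← hE₀] at c2 c3 c4
  have hcase : ∀ e ∈ E₀, e ∈ F ∨ (e ∈ F₁' \ onl P₁ F ∧ col e ∈ B 2 ∪ K₂) ∨
      (e ∈ F₂' \ onl P₂ F ∧ col e ∈ B 3 ∪ K₃) := by
    intro e he
    rw [hE₀, Finset.mem_union, Finset.mem_union] at he
    rcases he with (h | h) | h
    · by_cases ho : e ∈ onl P₁ F
      · exact Or.inl (Finset.mem_filter.1 ho).1
      · exact Or.inr (Or.inl ⟨Finset.mem_sdiff.2 ⟨h, ho⟩, hc₁ e h ho⟩)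
    · exact Or.inl (Finset.mem_sdiff.1 h).1
    · by_cases ho : e ∈ onl P₂ F
      · exact Or.inl (Finset.mem_filter.1 ho).1
      · exact Or.inr (Or.inr ⟨Finset.mem_sdiff.2 ⟨h, ho⟩, hc₂ e h ho⟩)
  refine ⟨E₀, c1.nodup_iff.2 hnd, fun v => (c1.mem_iff).trans (hU v), c2, c3, c4, ?_, ?_, ?_, ?_,
    ?_, ?_⟩
  · intro e he
    rcases hcase e he with h | h | h
    · exact hFB 4 (by decide) (by decide) e h
    · exact h2K 4 (by decide) _ h.2
    · exact h3K 4 (by decide) _ h.2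
  · intro e he
    rcases hcase e he with h | h | h
    · exact Or.inl h
    · exact Or.inr (Or.inl h.1)
    · exact Or.inr (Or.inr h.1)
  · intro e he heE
    rcases hcase e he with h | h | h
    · rcases hFc e h heE with (h' | h') | h'
      · exact Or.inl ⟨0, h'⟩
      · exact Or.inl ⟨1, h'⟩
      · exact Or.inr h'
    · rcases Finset.mem_union.1 h.2 with h' | h'
      · exact Or.inl ⟨2, h'⟩
      · exact Or.inr (hK₂ h')
    · rcases Finset.mem_union.1 h.2 with h' | h'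
      · exact Or.inl ⟨3, h'⟩
      · exact Or.inr (hK₃ h')
  · intro i
    by_cases hi2 : i = 2
    · subst hi2
      refine (Finset.card_le_card ?_).trans hf₁
      intro e he
      rw [Finset.mem_filter] at he
      rcases hcase e he.1 with h | h | h
      · exact absurd he.2 (hFB 2 (by decide) (by decide) e h)
      · exact h.1
      · exact absurd he.2 (h3K 2 (by decide) _ h.2)
    · by_cases hi3 : i = 3
      · subst hi3
        refine (Finset.card_le_card ?_).trans hf₂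
        intro e he
        rw [Finset.mem_filter] at he
        rcases hcase e he.1 with h | h | h
        · exact absurd he.2 (hFB 3 (by decide) (by decide) e h)
        · exact absurd he.2 (h2K 3 (by decide) _ h.2)
        · exact h.1
      · refine (Finset.card_le_card ?_).trans (hF0 i)
        intro e he
        rw [Finset.mem_filter] at he
        rcases hcase e he.1 with h | h | h
        · exact Finset.mem_filter.2 ⟨h, he.2⟩
        · exact absurd he.2 (h2K i hi2 _ h.2)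
        · exact absurd he.2 (h3K i hi3 _ h.2)
  · have hsub : E₀.filter (fun e => col e ∈ K) ⊆
        F.filter (fun e => col e ∈ K) ∪ ((F₁' \ onl P₁ F) ∪ (F₂' \ onl P₂ F)) := by
      intro e he
      rw [Finset.mem_filter] at he
      rw [Finset.mem_union, Finset.mem_union]
      rcases hcase e he.1 with h | h | h
      · exact Or.inl (Finset.mem_filter.2 ⟨h, he.2⟩)
      · exact Or.inr (Or.inl h.1)
      · exact Or.inr (Or.inr h.1)
    have h1 := Finset.card_le_card hsub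
    have h2 := Finset.card_union_le (F.filter (fun e => col e ∈ K))
      ((F₁' \ onl P₁ F) ∪ (F₂' \ onl P₂ F))
    have h3 := Finset.card_union_le (F₁' \ onl P₁ F) (F₂' \ onl P₂ F)
    omega
  · intro e heE he
    by_cases hef : e ∈ F
    · by_cases ho₁ : e ∈ onl P₁ F
      · by_cases h' : e ∈ F₁'
        · refine absurd ?_ he
          rw [hE₀]
          exact Finset.mem_union_left _ (Finset.mem_union_left _ h')
        · exact hk₁ e ho₁ h'
      · by_cases ho₂ : e ∈ onl P₂ F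
        · by_cases h' : e ∈ F₂'
          · refine absurd ?_ he
            rw [hE₀]
            exact Finset.mem_union_right _ h'
          · exact hk₂ e ho₂ h'
        · refine absurd ?_ he
          rw [hE₀]
          refine Finset.mem_union_left _ (Finset.mem_union_right _ (Finset.mem_sdiff.2 ⟨hef, ?_⟩))
          rw [Finset.mem_union, not_or]
          exact ⟨ho₁, ho₂⟩
    · exact hkeep e heE hef

end Pool.Agent.W_cd7020_h81c
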