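import Pool.Agent.W_cd7020_h81b.RotA
import Pool.Agent.W_cd7020_h81b.ColB

/-!
# Weighted colours, rotations with protected vertices: definitions

A generalization of the rotation method of `W_cd7020_h81b`: the colours have weights, there are
free (unused) colours `K` besides the pools, and edges with both ends in a set `Z` of protected
vertices are never removed.
-/

set_option autoImplicit false

namespace Pool.Agent.W_cd7020_h81c

open Finset Pool.Agent.W_cd7020_h81 Pool.Agent.W_cd7020_h81b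

variable {V κ : Type*} [DecidableEq V] [DecidableEq κ]

/-- The weight of the edges between `x` and `Y`. -/
def wd (col : Sym2 V → κ) (ω : κ → ℝ) (x : V) (Y : Finset V) : ℝ :=
  ∑ y ∈ Y.filter (fun y => y ≠ x), ω (col s(x, y))

/-- Upper mixing bound. -/
def UMix [Fintype V] (col : Sym2 V → κ) (ω : κ → ℝ) (k a : ℝ) : Prop :=
  ∀ X Y : Finset V, ∑ x ∈ X, wd col ω x Y ≤
    k / (Fintype.card V : ℝ) * ((X.card : ℝ) * (Y.card : ℝ)) +
      a * Real.sqrt ((X.card : ℝ) * (Y.card : ℝ))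

/-- Lower mixing bound. -/
def LMix [Fintype V] (col : Sym2 V → κ) (ω : κ → ℝ) (k a : ℝ) : Prop :=
  ∀ X Y : Finset V, k / (Fintype.card V : ℝ) * ((X.card : ℝ) * (Y.card : ℝ)) -
    a * Real.sqrt ((X.card : ℝ) * (Y.card : ℝ)) ≤ ∑ x ∈ X, wd col ω x Y

/-- The weight `1` for the colours of the pool `B` and `β` for the colours of `K`. -/
def pw (B K : Finset κ) (β : ℝ) (k : κ) : ℝ := if k ∈ B then 1 else if k ∈ K then β else 0

/-- `Rot` which loses no edge with both ends in `Z`. -/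
structure RotZ (col : Sym2 V → κ) (B : Finset κ) (Z : Finset V) (P₀ : List V)
    (F₀ : Finset (Sym2 V)) (j : ℕ) (P : List V) (F : Finset (Sym2 V)) : Prop where
  rot : Rot col B P₀ F₀ j P F
  keep : ∀ e ∈ F₀, e ∉ F → ∃ y ∈ e, y ∉ Z

/-- `Suc` which loses no edge with both ends in `Z`. -/
def SucZ (col : Sym2 V → κ) (B : Finset κ) (Z : Finset V) (P₀ : List V) (F₀ : Finset (Sym2 V))
    (j : ℕ) : Prop :=
  ∃ P F, P.Perm P₀ ∧ P.getLast? = P₀.getLast? ∧ (∀ e ∈ F, e ∈ pe P) ∧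
    F.card = F₀.card + 1 ∧ Rb col F ∧ (∀ e ∈ F, e ∉ F₀ → col e ∈ B) ∧ (F \ F₀).card ≤ j ∧
    ∀ e ∈ F₀, e ∉ F → ∃ y ∈ e, y ∉ Z

/-- What the closing lemma produces from `E`: one more edge, at most `j` new edges with colours in
each `B i`, at most `5 j` new edges with colours in `K`, no edge inside `Z` is lost. -/
def GoalZ (col : Sym2 V → κ) (U : Finset V) (E : Finset (Sym2 V)) (B : Fin 5 → Finset κ)
    (K : Finset κ) (Z : Finset V) (j : ℕ) : Prop :=
  ∃ E', Cyc U E' ∧ E'.card = E.card + 1 ∧ Rb col E' ∧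
    (∀ e ∈ E', e ∉ E → (∃ i, col e ∈ B i) ∨ col e ∈ K) ∧
    (∀ i, (E'.filter (fun e => col e ∈ B i)).card ≤ j) ∧
    (E'.filter (fun e => col e ∈ K)).card ≤ 5 * j ∧
    ∀ e ∈ E, e ∉ E' → ∃ y ∈ e, y ∉ Z

end Pool.Agent.W_cd7020_h81c
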