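import Pool.Agent.W_cd7020_h81c.ADefs

/-!
# One rotation with protected vertices
-/

set_option autoImplicit false

namespace Pool.Agent.W_cd7020_h81c

open Finset Pool.Agent.W_cd7020_h81 Pool.Agent.W_cd7020_h81b

variable {V κ : Type*} [DecidableEq V] [DecidableEq κ]

/-- No rotation (`Rot_refl`). -/
theorem RotZ_refl (col : Sym2 V → κ) (B : Finset κ) (Z : Finset V) (P₀ : List V)
    (F₀ : Finset (Sym2 V)) (hF : ∀ e ∈ F₀, e ∈ pe P₀) (hFr : Rb col F₀) (j : ℕ) :
    RotZ col B Z P₀ F₀ j P₀ F₀ := by
  exact ⟨Rot_refl col B P₀ F₀ hF hFr j, fun e h h' => absurd h h'⟩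

theorem RotZ_mono (col : Sym2 V → κ) (B : Finset κ) (Z : Finset V) (P₀ P : List V)
    (F₀ F : Finset (Sym2 V)) (i j : ℕ) (hij : i ≤ j) (h : RotZ col B Z P₀ F₀ i P F) :
    RotZ col B Z P₀ F₀ j P F := by
  exact ⟨Rot_mono col B P₀ P F₀ F i j hij h.rot, h.keep⟩

/-- One rotation: adapt the proof of `rot_step` (file `W_cd7020_h81b/RotA.lean`). The only edge which
may be lost is `s(u, y)`, and `y ∉ Z`. -/
theorem rotZ_step (col : Sym2 V → κ) (B : Finset κ) (Z : Finset V) (P₀ : List V)
    (F₀ : Finset (Sym2 V)) (j : ℕ) (F : Finset (Sym2 V)) (A D : List V) (u y x : V)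
    (hP₀ : P₀.Nodup) (hFB : ∀ e ∈ F₀, col e ∉ B)
    (h : RotZ col B Z P₀ F₀ j (A ++ u :: y :: D) F)
    (hx : (A ++ u :: y :: D).head? = some x) (hb : col s(x, y) ∈ B)
    (hnew : ∀ e ∈ F, col e ≠ col s(x, y)) (hold : s(u, y) ∈ pe P₀) (hyZ : y ∉ Z) :
    SucZ col B Z P₀ F₀ (j + 1) ∨
      ∃ F', RotZ col B Z P₀ F₀ (j + 1) (u :: A.reverse ++ y :: D) F' := by
  have hnd : (A ++ u :: y :: D).Nodup := h.rot.perm.nodup_iff.mpr hP₀
  have hpe := pe_rot A D u y x hx hnd
  have hperm : (u :: A.reverse ++ y :: D).Perm P₀ := by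
    refine List.Perm.trans ?_ h.rot.perm
    have h1 : A ++ u :: y :: D = (A ++ [u]) ++ y :: D := by simp
    have h2 : u :: A.reverse ++ y :: D = (A ++ [u]).reverse ++ y :: D := by simp
    rw [h1, h2]
    exact List.Perm.append_right _ (List.reverse_perm _)
  have hlast : (u :: A.reverse ++ y :: D).getLast? = P₀.getLast? := by
    rw [← h.rot.last]
    have h1 : A ++ u :: y :: D = (A ++ [u]) ++ y :: D := by simp
    rw [h1, List.getLast?_append_of_ne_nil _ (by simp), List.getLast?_append_of_ne_nil _ (by simp)]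
  have he0F : s(x, y) ∉ F := fun h1 => hnew _ h1 rfl
  have he0F₀ : s(x, y) ∉ F₀ := fun h1 => hFB _ h1 hb
  by_cases huy : s(u, y) ∈ F
  · right
    refine ⟨insert s(x, y) (F.erase s(u, y)), ?_⟩
    have hne : s(x, y) ∉ F.erase s(u, y) := fun h1 => he0F (Finset.mem_of_mem_erase h1)
    refine ⟨⟨hperm, hlast, ?_, ?_, ?_, ?_, ?_, ?_, ?_⟩, ?_⟩
    · intro e he
      rw [hpe]
      rw [Finset.mem_insert, Finset.mem_erase] at he
      rcases he with he | ⟨he1, he2⟩
      · exact Or.inr he
      · exact Or.inl ⟨h.rot.real e he2, he1⟩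
    · rw [Finset.card_insert_of_notMem hne, Finset.card_erase_add_one huy, h.rot.card]
    · intro e he e' he' hee
      rw [Finset.mem_insert, Finset.mem_erase] at he he'
      rcases he with rfl | ⟨he1, he2⟩
      · rcases he' with rfl | ⟨he1', he2'⟩
        · rfl
        · exact absurd hee.symm (hnew _ he2')
      · rcases he' with rfl | ⟨he1', he2'⟩
        · exact absurd hee (hnew _ he2)
        · exact h.rot.rb _ he2 _ he2' hee
    · intro e he he'
      rw [Finset.mem_insert, Finset.mem_erase] at he
      rcases he with rfl | ⟨he1, he2⟩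
      · exact hb
      · exact h.rot.cols e he2 he'
    · have hsub : insert s(x, y) (F.erase s(u, y)) \ F₀ ⊆ insert s(x, y) (F \ F₀) := by
        intro e he
        rw [Finset.mem_sdiff, Finset.mem_insert, Finset.mem_erase] at he
        rw [Finset.mem_insert, Finset.mem_sdiff]
        rcases he with ⟨he | he, he'⟩
        · exact Or.inl he
        · exact Or.inr ⟨he.2, he'⟩
      refine (Finset.card_le_card hsub).trans ((Finset.card_insert_le _ _).trans ?_)
      have := h.rot.few
      omega
    · intro e he he'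
      rw [hpe] at he
      rw [Finset.mem_sdiff, Finset.mem_insert, Finset.mem_erase]
      rcases he with ⟨h1, h2⟩ | rfl
      · have h3 := h.rot.new e h1 he'
        rw [Finset.mem_sdiff] at h3
        exact ⟨Or.inr ⟨h2, h3.1⟩, h3.2⟩
      · exact ⟨Or.inl rfl, he0F₀⟩
    · have hsub : (pe P₀).toFinset \ (pe (u :: A.reverse ++ y :: D)).toFinset ⊆
          insert s(u, y) ((pe P₀).toFinset \ (pe (A ++ u :: y :: D)).toFinset) := by
        intro e he
        rw [Finset.mem_sdiff, List.mem_toFinset, List.mem_toFinset] at he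
        rw [Finset.mem_insert, Finset.mem_sdiff, List.mem_toFinset, List.mem_toFinset]
        by_cases h1 : e = s(u, y)
        · exact Or.inl h1
        · refine Or.inr ⟨he.1, fun h2 => he.2 ?_⟩
          rw [hpe]
          exact Or.inl ⟨h2, h1⟩
      refine (Finset.card_le_card hsub).trans ((Finset.card_insert_le _ _).trans ?_)
      have := h.rot.lost
      omega
    · intro e he he'
      by_cases h1 : e = s(u, y)
      · subst h1
        exact ⟨y, Sym2.mem_mk_right u y, hyZ⟩
      · refine h.keep e he fun h2 => he' ?_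
        rw [Finset.mem_insert, Finset.mem_erase]
        exact Or.inr ⟨h1, h2⟩
  · left
    refine ⟨u :: A.reverse ++ y :: D, insert s(x, y) F, hperm, hlast, ?_, ?_, ?_, ?_, ?_, ?_⟩
    · intro e he
      rw [hpe]
      rw [Finset.mem_insert] at he
      rcases he with he | he
      · exact Or.inr he
      · refine Or.inl ⟨h.rot.real e he, ?_⟩
        rintro rfl
        exact huy he
    · rw [Finset.card_insert_of_notMem he0F, h.rot.card]
    · intro e he e' he' hee
      rw [Finset.mem_insert] at he he'
      rcases he with rfl | he2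
      · rcases he' with rfl | he2'
        · rfl
        · exact absurd hee.symm (hnew _ he2')
      · rcases he' with rfl | he2'
        · exact absurd hee (hnew _ he2)
        · exact h.rot.rb _ he2 _ he2' hee
    · intro e he he'
      rw [Finset.mem_insert] at he
      rcases he with rfl | he2
      · exact hb
      · exact h.rot.cols e he2 he'
    · have hsub : insert s(x, y) F \ F₀ ⊆ insert s(x, y) (F \ F₀) := by
        intro e he
        rw [Finset.mem_sdiff, Finset.mem_insert] at he
        rw [Finset.mem_insert, Finset.mem_sdiff]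
        rcases he with ⟨he | he, he'⟩
        · exact Or.inl he
        · exact Or.inr ⟨he, he'⟩
      refine (Finset.card_le_card hsub).trans ((Finset.card_insert_le _ _).trans ?_)
      have := h.rot.few
      omega
    · intro e he he'
      refine h.keep e he fun h2 => he' ?_
      rw [Finset.mem_insert]
      exact Or.inr h2

end Pool.Agent.W_cd7020_h81c
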