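import Pool.Agent.W_cd7020_h81c.AWd

/-!
# Expansion with weights
-/

set_option autoImplicit false

namespace Pool.Agent.W_cd7020_h81c

open Finset Pool.Agent.W_cd7020_h81 Pool.Agent.W_cd7020_h81b

variable {V κ : Type*} [DecidableEq V] [DecidableEq κ] [Fintype V]

/-- Expansion from the mixing property (adapt `RotB_exp`, file `W_cd7020_h81b/RotE.lean`): if every
`x ∈ X` has weight at least `d` to `N` and `4 a ≤ d`, then `|N| ≥ min (d n / (2 k), 4 |X|)`:
`d |X| ≤ k/n |X| |N| + a √(|X| |N|)`, one of the two terms is at least `d |X| / 2`. -/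
theorem wd_exp (col : Sym2 V → κ) (ω : κ → ℝ) (k a : ℝ) (hk : 0 ≤ k) (ha : 0 ≤ a)
    (hU : UMix col ω k a) (X N : Finset V) (d : ℝ) (hd0 : 0 < d) (hd : 4 * a ≤ d)
    (hX : ∀ x ∈ X, d ≤ wd col ω x N) :
    d * Fintype.card V ≤ 2 * k * N.card ∨ 4 * X.card ≤ N.card := by
  by_contra hcon
  rw [not_or] at hcon
  obtain ⟨h1, h2⟩ := hcon
  rw [not_le] at h1 h2
  have hXpos : 0 < X.card := by omega
  have hXne : X.Nonempty := Finset.card_pos.1 hXpos
  obtain ⟨x₀, hx₀⟩ := hXne
  have hn : 0 < Fintype.card V := Fintype.card_pos_iff.2 ⟨x₀⟩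
  have hnR : (0 : ℝ) < Fintype.card V := by exact_mod_cast hn
  have hXR : (0 : ℝ) < X.card := by exact_mod_cast hXpos
  have h3 : d * X.card ≤ ∑ x ∈ X, wd col ω x N := by
    have h4 : ∑ _x ∈ X, d ≤ ∑ x ∈ X, wd col ω x N := Finset.sum_le_sum hX
    rw [Finset.sum_const, nsmul_eq_mul, mul_comm] at h4
    exact h4
  have h6 := hU X N
  set r := Real.sqrt ((X.card : ℝ) * (N.card : ℝ)) with hr
  have hr0 : 0 ≤ r := Real.sqrt_nonneg _
  have hrr : r * r = (X.card : ℝ) * (N.card : ℝ) := Real.mul_self_sqrt (by positivity)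
  have h7 : k / (Fintype.card V : ℝ) * ((X.card : ℝ) * (N.card : ℝ)) ≤ d * X.card / 2 := by
    rw [div_mul_eq_mul_div, div_le_div_iff₀ hnR (by norm_num)]
    have : 2 * k * N.card * X.card ≤ d * Fintype.card V * X.card :=
      mul_le_mul_of_nonneg_right h1.le hXR.le
    linarith
  have h8 : d * X.card / 2 ≤ a * r := by linarith
  have h9 : a * r ≤ d / 4 * r := mul_le_mul_of_nonneg_right (by linarith) hr0
  have h10 : 2 * (X.card : ℝ) ≤ r := by
    have h11 : d * (2 * X.card) ≤ d * r := by linarith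
    exact le_of_mul_le_mul_left h11 hd0
  have h12 : (2 * (X.card : ℝ)) * (2 * X.card) ≤ (X.card : ℝ) * N.card := by
    rw [← hrr]
    exact mul_self_le_mul_self (by positivity) h10
  have h13 : 4 * (X.card : ℝ) ≤ N.card := by
    have h14 : (X.card : ℝ) * (4 * X.card) ≤ X.card * N.card := by linarith
    exact le_of_mul_le_mul_left h14 hXR
  have h15 : 4 * X.card ≤ N.card := by exact_mod_cast h13
  omega

end Pool.Agent.W_cd7020_h81c
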