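import Pool.Agent.W_cd7020_h81c.ADefs

/-!
# Weights: elementary properties
-/

set_option autoImplicit false

namespace Pool.Agent.W_cd7020_h81c

open Finset Pool.Agent.W_cd7020_h81 Pool.Agent.W_cd7020_h81b

variable {V κ : Type*} [DecidableEq V] [DecidableEq κ]

theorem pw_nonneg (B K : Finset κ) (β : ℝ) (h : 0 ≤ β) (k : κ) : 0 ≤ pw B K β k := by
  unfold pw
  split_ifs
  · exact zero_le_one
  · exact h
  · exact le_rfl

theorem pw_le_one (B K : Finset κ) (β : ℝ) (h : β ≤ 1) (k : κ) : pw B K β k ≤ 1 := by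
  unfold pw
  split_ifs
  · exact le_rfl
  · exact h
  · exact zero_le_one

theorem pw_zero (B K : Finset κ) (β : ℝ) (k : κ) (hk : k ∉ B ∪ K) : pw B K β k = 0 := by
  rw [Finset.mem_union, not_or] at hk
  unfold pw
  rw [if_neg hk.1, if_neg hk.2]

/-- Fewer colours have smaller weights (`B' ⊆ B`, `K' ⊆ K`, `0 ≤ β ≤ 1`). -/
theorem pw_mono (B B' K K' : Finset κ) (β : ℝ) (h0 : 0 ≤ β) (h1 : β ≤ 1) (hB : B' ⊆ B)
    (hK : K' ⊆ K) (k : κ) : pw B' K' β k ≤ pw B K β k := by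
  by_cases hb : k ∈ B'
  · unfold pw
    rw [if_pos hb, if_pos (hB hb)]
  · by_cases hk : k ∈ K'
    · unfold pw
      rw [if_neg hb, if_pos hk, if_pos (hK hk)]
      split_ifs
      · exact h1
      · exact le_rfl
    · rw [pw_zero B' K' β k (by rw [Finset.mem_union, not_or]; exact ⟨hb, hk⟩)]
      exact pw_nonneg B K β h0 k

theorem wd_nonneg (col : Sym2 V → κ) (ω : κ → ℝ) (h : ∀ k, 0 ≤ ω k) (x : V) (Y : Finset V) :
    0 ≤ wd col ω x Y := Finset.sum_nonneg fun _ _ => h _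

theorem wd_mono (col : Sym2 V → κ) (ω ω' : κ → ℝ) (h0 : ∀ k, 0 ≤ ω k) (h : ∀ k, ω k ≤ ω' k)
    (x : V) (Y Y' : Finset V) (hY : Y ⊆ Y') : wd col ω x Y ≤ wd col ω' x Y' := by
  unfold wd
  calc ∑ y ∈ Y.filter (fun y => y ≠ x), ω (col s(x, y))
      ≤ ∑ y ∈ Y'.filter (fun y => y ≠ x), ω (col s(x, y)) :=
        Finset.sum_le_sum_of_subset_of_nonneg (Finset.filter_subset_filter _ hY)
          fun _ _ _ => h0 _
    _ ≤ ∑ y ∈ Y'.filter (fun y => y ≠ x), ω' (col s(x, y)) :=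
        Finset.sum_le_sum fun _ _ => h _

/-- Dropping at most `j` vertices. -/
theorem wd_drop (col : Sym2 V → κ) (ω : κ → ℝ) (h0 : ∀ k, 0 ≤ ω k) (h1 : ∀ k, ω k ≤ 1) (x : V)
    (Y Y' : Finset V) (j : ℕ) (hj : (Y \ Y').card ≤ j) : wd col ω x Y ≤ wd col ω x Y' + j := by
  have hsub : Y.filter (fun y => y ≠ x) ⊆ Y'.filter (fun y => y ≠ x) ∪ (Y \ Y') := by
    intro y hy
    rw [Finset.mem_filter] at hy
    rw [Finset.mem_union, Finset.mem_filter, Finset.mem_sdiff]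
    by_cases hyY : y ∈ Y'
    · exact Or.inl ⟨hyY, hy.2⟩
    · exact Or.inr ⟨hy.1, hyY⟩
  have h2 : ∑ y ∈ Y'.filter (fun y => y ≠ x) ∪ (Y \ Y'), ω (col s(x, y)) ≤
      ∑ y ∈ Y'.filter (fun y => y ≠ x), ω (col s(x, y)) + ∑ y ∈ Y \ Y', ω (col s(x, y)) := by
    rw [← Finset.sum_union_inter]
    have : 0 ≤ ∑ y ∈ Y'.filter (fun y => y ≠ x) ∩ (Y \ Y'), ω (col s(x, y)) :=
      Finset.sum_nonneg fun _ _ => h0 _
    linarith
  have h3 : ∑ y ∈ Y \ Y', ω (col s(x, y)) ≤ j := by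
    calc ∑ y ∈ Y \ Y', ω (col s(x, y)) ≤ ∑ _y ∈ Y \ Y', (1 : ℝ) :=
          Finset.sum_le_sum fun _ _ => h1 _
      _ = ((Y \ Y').card : ℝ) := by simp
      _ ≤ j := by exact_mod_cast hj
  have h4 := Finset.sum_le_sum_of_subset_of_nonneg (f := fun y => ω (col s(x, y))) hsub
    fun _ _ _ => h0 _
  unfold wd
  linarith

/-- Only vertices joined by a colour of positive weight count. -/
theorem wd_filter (col : Sym2 V → κ) (ω : κ → ℝ) (B : Finset κ) (h : ∀ k, k ∉ B → ω k = 0)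
    (x : V) (Y : Finset V) :
    wd col ω x Y = wd col ω x (Y.filter (fun y => y ≠ x ∧ col s(x, y) ∈ B)) := by
  unfold wd
  symm
  refine Finset.sum_subset (fun y hy => ?_) fun y hy hy' => ?_
  · simp only [Finset.mem_filter] at hy ⊢
    exact ⟨hy.1.1, hy.2⟩
  · simp only [Finset.mem_filter] at hy hy'
    exact h _ fun hb => hy' ⟨⟨hy.1, hy.2, hb⟩, hy.2⟩

/-- The weight `pw` in terms of numbers of vertices, `B` and `K` disjoint. -/
theorem wd_pw (col : Sym2 V → κ) (B K : Finset κ) (β : ℝ) (hBK : Disjoint B K) (x : V)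
    (Y : Finset V) : wd col (pw B K β) x Y =
      (Y.filter (fun y => y ≠ x ∧ col s(x, y) ∈ B)).card +
        β * (Y.filter (fun y => y ≠ x ∧ col s(x, y) ∈ K)).card := by
  have h1 : ∀ k, pw B K β k = (if k ∈ B then (1 : ℝ) else 0) + β * (if k ∈ K then (1 : ℝ) else 0) := by
    intro k
    unfold pw
    by_cases hb : k ∈ B
    · rw [if_pos hb, if_pos hb, if_neg (Finset.disjoint_left.1 hBK hb)]
      ring
    · rw [if_neg hb, if_neg hb]
      split_ifs <;> ring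
  have h2 : ∀ C : Finset κ, ∑ y ∈ Y.filter (fun y => y ≠ x), (if col s(x, y) ∈ C then (1 : ℝ) else 0) =
      ((Y.filter (fun y => y ≠ x ∧ col s(x, y) ∈ C)).card : ℝ) := by
    intro C
    rw [← Finset.sum_filter, Finset.filter_filter, Finset.sum_const, nsmul_eq_mul, mul_one]
  unfold wd
  rw [Finset.sum_congr rfl fun y _ => h1 _, Finset.sum_add_distrib, ← Finset.mul_sum, h2, h2]

theorem AWd_cnt (col : Sym2 V → κ) (hcol : Proper col) (G : Finset κ) (x : V) (Y : Finset V) :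
    (Y.filter (fun y => y ≠ x ∧ col s(x, y) ∈ G)).card ≤ G.card := by
  refine Finset.card_le_card_of_injOn (fun y => col s(x, y)) ?_ ?_
  · intro y hy
    rw [Finset.mem_coe, Finset.mem_filter] at hy
    exact hy.2.2
  · intro y hy z hz hyz
    rw [Finset.mem_coe, Finset.mem_filter] at hy hz
    by_contra hne
    exact hcol x y z hy.2.1.symm hz.2.1.symm hne hyz

theorem AWd_diff (col : Sym2 V → κ) (B B' K K' : Finset κ) (β : ℝ)
    (h1 : β ≤ 1) (hB : B' ⊆ B) (hK : K' ⊆ K) (hBK : Disjoint B K) (x : V) (Y : Finset V) :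
    wd col (pw B K β) x Y ≤ wd col (pw B' K' β) x Y +
      ((Y.filter (fun y => y ≠ x ∧ col s(x, y) ∈ (B ∪ K) \ (B' ∪ K'))).card : ℝ) := by
  have hkey : ∀ k, pw B K β k ≤ pw B' K' β k + (if k ∈ (B ∪ K) \ (B' ∪ K') then (1 : ℝ) else 0) := by
    intro k
    by_cases hG : k ∈ (B ∪ K) \ (B' ∪ K')
    · rw [if_pos hG]
      rw [Finset.mem_sdiff] at hG
      rw [pw_zero B' K' β k hG.2, zero_add]
      exact pw_le_one B K β h1 k
    · rw [if_neg hG, add_zero]
      rw [Finset.mem_sdiff, not_and, not_not] at hG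
      by_cases hk : k ∈ B ∪ K
      · have h2 := hG hk
        rw [Finset.mem_union] at h2
        rcases h2 with h2 | h2
        · unfold pw
          rw [if_pos h2, if_pos (hB h2)]
        · have h3 : k ∉ B := fun h => Finset.disjoint_left.1 hBK h (hK h2)
          have h4 : k ∉ B' := fun h => h3 (hB h)
          unfold pw
          rw [if_neg h3, if_neg h4, if_pos h2, if_pos (hK h2)]
      · have hk' : k ∉ B' ∪ K' := fun h => hk (Finset.union_subset_union hB hK h)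
        rw [pw_zero B K β k hk, pw_zero B' K' β k hk']
  have h2 : ∑ y ∈ Y.filter (fun y => y ≠ x),
      (if col s(x, y) ∈ (B ∪ K) \ (B' ∪ K') then (1 : ℝ) else 0) =
      ((Y.filter (fun y => y ≠ x ∧ col s(x, y) ∈ (B ∪ K) \ (B' ∪ K'))).card : ℝ) := by
    rw [← Finset.sum_filter, Finset.filter_filter, Finset.sum_const, nsmul_eq_mul, mul_one]
  unfold wd
  rw [← h2, ← Finset.sum_add_distrib]
  exact Finset.sum_le_sum fun y _ => hkey _

/-- Removing a set `G` of at most `j` colours from the colours with positive weight lowers the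
weight by at most `j` (every colour joins `x` to at most one vertex). -/
theorem wd_colours (col : Sym2 V → κ) (hcol : Proper col) (B B' K K' : Finset κ) (β : ℝ)
    (h0 : 0 ≤ β) (h1 : β ≤ 1) (hB : B' ⊆ B) (hK : K' ⊆ K) (j : ℕ)
    (hj : ((B ∪ K) \ (B' ∪ K')).card ≤ j) (hBK : Disjoint B K) (x : V) (Y : Finset V) :
    wd col (pw B K β) x Y ≤ wd col (pw B' K' β) x Y + j := by
  have h2 := AWd_diff col B B' K K' β h1 hB hK hBK x Y
  have h3 : (((Y.filter (fun y => y ≠ x ∧ col s(x, y) ∈ (B ∪ K) \ (B' ∪ K'))).card : ℕ) : ℝ) ≤ j := by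
    exact_mod_cast (AWd_cnt col hcol _ x Y).trans hj
  linarith

theorem UMix_mono [Fintype V] (col : Sym2 V → κ) (ω ω' : κ → ℝ) (h0 : ∀ k, 0 ≤ ω' k)
    (h : ∀ k, ω' k ≤ ω k) (k a a' : ℝ) (haa : a ≤ a') (hU : UMix col ω k a) :
    UMix col ω' k a' := by
  intro X Y
  have h1 : ∑ x ∈ X, wd col ω' x Y ≤ ∑ x ∈ X, wd col ω x Y :=
    Finset.sum_le_sum fun x _ => wd_mono col ω' ω h0 h x Y Y (Finset.Subset.refl _)
  have h2 := hU X Y
  have h3 : a * Real.sqrt ((X.card : ℝ) * (Y.card : ℝ)) ≤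
      a' * Real.sqrt ((X.card : ℝ) * (Y.card : ℝ)) :=
    mul_le_mul_of_nonneg_right haa (Real.sqrt_nonneg _)
  linarith

/-- Removing at most `j` colours changes the weight between `X` and `Y` by at most
`j min (|X|, |Y|) ≤ j √(|X| |Y|)`. -/
theorem LMix_colours [Fintype V] (col : Sym2 V → κ) (hcol : Proper col) (B B' K K' : Finset κ)
    (β : ℝ) (h0 : 0 ≤ β) (h1 : β ≤ 1) (hB : B' ⊆ B) (hK : K' ⊆ K) (j : ℕ)
    (hj : ((B ∪ K) \ (B' ∪ K')).card ≤ j) (hBK : Disjoint B K) (k a : ℝ)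
    (hL : LMix col (pw B K β) k a) : LMix col (pw B' K' β) k (a + j) := by
  intro X Y
  set G := (B ∪ K) \ (B' ∪ K') with hG
  have h2 := hL X Y
  have h3 : ∑ x ∈ X, wd col (pw B K β) x Y ≤ ∑ x ∈ X, wd col (pw B' K' β) x Y +
      ((∑ x ∈ X, (Y.filter (fun y => y ≠ x ∧ col s(x, y) ∈ G)).card : ℕ) : ℝ) := by
    push_cast
    rw [← Finset.sum_add_distrib]
    exact Finset.sum_le_sum fun x _ => AWd_diff col B B' K K' β h1 hB hK hBK x Y
  have h4 : ∑ x ∈ X, (Y.filter (fun y => y ≠ x ∧ col s(x, y) ∈ G)).card ≤ j * X.card := by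
    calc ∑ x ∈ X, (Y.filter (fun y => y ≠ x ∧ col s(x, y) ∈ G)).card ≤ ∑ _x ∈ X, j :=
          Finset.sum_le_sum fun x _ => (AWd_cnt col hcol G x Y).trans hj
      _ = j * X.card := by rw [Finset.sum_const, smul_eq_mul, mul_comm]
  have h5 : ∑ x ∈ X, (Y.filter (fun y => y ≠ x ∧ col s(x, y) ∈ G)).card =
      ∑ y ∈ Y, (X.filter (fun x => x ≠ y ∧ col s(y, x) ∈ G)).card := by
    have e1 : ∀ x ∈ X, (Y.filter (fun y => y ≠ x ∧ col s(x, y) ∈ G)).card =
        ∑ y ∈ Y, if y ≠ x ∧ col s(x, y) ∈ G then 1 else 0 := fun x _ => Finset.card_filter _ _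
    have e2 : ∀ y ∈ Y, (X.filter (fun x => x ≠ y ∧ col s(y, x) ∈ G)).card =
        ∑ x ∈ X, if y ≠ x ∧ col s(x, y) ∈ G then 1 else 0 := by
      intro y _
      rw [Finset.card_filter]
      refine Finset.sum_congr rfl fun x _ => ?_
      refine if_congr ?_ rfl rfl
      rw [Sym2.eq_swap]
      exact and_congr_left' ne_comm
    rw [Finset.sum_congr rfl e1, Finset.sum_comm, Finset.sum_congr rfl e2]
  have h6 : ∑ x ∈ X, (Y.filter (fun y => y ≠ x ∧ col s(x, y) ∈ G)).card ≤ j * Y.card := by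
    rw [h5]
    calc ∑ y ∈ Y, (X.filter (fun x => x ≠ y ∧ col s(y, x) ∈ G)).card ≤ ∑ _y ∈ Y, j :=
          Finset.sum_le_sum fun y _ => (AWd_cnt col hcol G y X).trans hj
      _ = j * Y.card := by rw [Finset.sum_const, smul_eq_mul, mul_comm]
  set T : ℕ := ∑ x ∈ X, (Y.filter (fun y => y ≠ x ∧ col s(x, y) ∈ G)).card with hT
  have h7 : (T : ℝ) ≤ j * Real.sqrt ((X.card : ℝ) * (Y.card : ℝ)) := by
    have e1 : (T : ℝ) ≤ j * X.card := by exact_mod_cast h4
    have e2 : (T : ℝ) ≤ j * Y.card := by exact_mod_cast h6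
    have e3 : (T : ℝ) ≤ Real.sqrt ((j : ℝ) ^ 2 * ((X.card : ℝ) * (Y.card : ℝ))) := by
      apply Real.le_sqrt_of_sq_le
      calc (T : ℝ) ^ 2 = T * T := by ring
        _ ≤ (j * X.card) * (j * Y.card) :=
            mul_le_mul e1 e2 (Nat.cast_nonneg _) (by positivity)
        _ = (j : ℝ) ^ 2 * ((X.card : ℝ) * (Y.card : ℝ)) := by ring
    rw [Real.sqrt_mul (by positivity), Real.sqrt_sq (Nat.cast_nonneg _)] at e3
    exact e3
  have h8 : (a + j) * Real.sqrt ((X.card : ℝ) * (Y.card : ℝ)) =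
      a * Real.sqrt ((X.card : ℝ) * (Y.card : ℝ)) + j * Real.sqrt ((X.card : ℝ) * (Y.card : ℝ)) := by
    ring
  linarith

end Pool.Agent.W_cd7020_h81c
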