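import Pool.Agent.W_cd7020_h81c.ARotA
import Pool.Agent.W_cd7020_h81c.AWd
import Pool.Agent.W_cd7020_h81b.RotO

/-!
# Every reachable list gives many rotations (with weights and protected vertices)
-/

set_option autoImplicit false

namespace Pool.Agent.W_cd7020_h81c

open Finset Pool.Agent.W_cd7020_h81 Pool.Agent.W_cd7020_h81b

variable {V κ : Type*} [DecidableEq V] [DecidableEq κ] [Fintype V]

omit [DecidableEq V] [Fintype V] in
theorem ARotO_split (P : List V) (x y : V) (hx : P.head? = some x) (hy : y ∈ P)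
    (hne : y ≠ x) : ∃ A u D, P = A ++ u :: y :: D := by
  obtain ⟨L, D, rfl⟩ := List.append_of_mem hy
  rcases List.eq_nil_or_concat L with h | ⟨A, u, h⟩
  · subst h
    simp only [List.nil_append, List.head?_cons, Option.some.injEq] at hx
    exact absurd hx hne
  · refine ⟨A, u, D, ?_⟩
    rw [h]
    simp

omit [DecidableEq V] [Fintype V] in
theorem ARotO_get (P A D : List V) (u y : V) (h : P = A ++ u :: y :: D) :
    (∃ h1 : A.length < P.length, P[A.length] = u) ∧
      (∃ h2 : A.length + 1 < P.length, P[A.length + 1] = y) := by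
  subst h
  constructor
  · refine ⟨by simp, by simp⟩
  · refine ⟨by simp, by simp⟩

omit [DecidableEq V] [Fintype V] in
theorem ARotO_inj (P A D A' D' : List V) (u y u' y' : V) (hP : P.Nodup)
    (h : P = A ++ u :: y :: D) (h' : P = A' ++ u' :: y' :: D') (he : s(u, y) = s(u', y')) :
    y = y' := by
  obtain ⟨⟨h1, h2⟩, ⟨h3, h4⟩⟩ := ARotO_get P A D u y h
  obtain ⟨⟨h5, h6⟩, ⟨h7, h8⟩⟩ := ARotO_get P A' D' u' y' h'
  rw [Sym2.eq_iff] at he
  rcases he with ⟨_, h9⟩ | ⟨h9, h10⟩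
  · exact h9
  · exfalso
    have e1 : P[A.length] = P[A'.length + 1] := by rw [h2, h8, h9]
    have e2 : P[A.length + 1] = P[A'.length] := by rw [h4, h6, h10]
    have e3 := (hP.getElem_inj_iff).1 e1
    have e4 := (hP.getElem_inj_iff).1 e2
    omega

/-- Adapt `RotB_options` (file `W_cd7020_h81b/RotO.lean`). The weight `ω` is supported in `B`
(`wd_filter`), so of the `y ∈ Y` joined to `x` in a colour of `B` at most `2 J` are dropped, each of
weight at most `1` (`wd_drop`). -/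
theorem optionsZ (col : Sym2 V → κ) (hcol : Proper col) (B : Finset κ) (ω : κ → ℝ)
    (hω0 : ∀ k, 0 ≤ ω k) (hω1 : ∀ k, ω k ≤ 1) (hωB : ∀ k, k ∉ B → ω k = 0) (Z : Finset V)
    (P₀ : List V) (F₀ : Finset (Sym2 V)) (hP₀ : P₀.Nodup) (hFB : ∀ e ∈ F₀, col e ∉ B) (J j : ℕ)
    (d : ℝ) (hj : j < J) (Y : Finset V) (hY : ∀ y ∈ Y, y ∈ P₀) (hYZ : ∀ y ∈ Y, y ∉ Z)
    (P : List V) (F : Finset (Sym2 V)) (x : V) (hx : P.head? = some x)
    (h : RotZ col B Z P₀ F₀ j P F) (hd : d + 2 * J ≤ wd col ω x Y)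
    (hns : ¬ SucZ col B Z P₀ F₀ (j + 1)) :
    ∃ O : Finset V, O ⊆ Y ∧ d ≤ wd col ω x O ∧ ∀ y ∈ O, x ≠ y ∧ col s(x, y) ∈ B ∧
      ∃ u P' F', s(u, y) ∈ pe P₀ ∧ P'.head? = some u ∧ RotZ col B Z P₀ F₀ (j + 1) P' F' := by
  classical
  have hPnd : P.Nodup := h.rot.perm.nodup_iff.2 hP₀
  set Y1 := Y.filter (fun y => y ≠ x ∧ col s(x, y) ∈ B) with hY1
  have hsp : ∀ y : V, ∃ A u D, y ∈ Y1 → P = A ++ u :: y :: D := by
    intro y
    by_cases hy : y ∈ Y1
    · have hy' := Finset.mem_filter.1 hy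
      obtain ⟨A, u, D, hh⟩ := ARotO_split P x y hx (h.rot.perm.mem_iff.2 (hY y hy'.1)) hy'.2.1
      exact ⟨A, u, D, fun _ => hh⟩
    · exact ⟨[], y, [], fun hc => absurd hc hy⟩
  choose fA fu fD hf using hsp
  -- first bad set
  set B1 := Y1.filter (fun y => ∃ e ∈ F, col e = col s(x, y)) with hB1
  have hB1c : B1.card ≤ j := by
    have hex : ∀ y : V, ∃ e : Sym2 V, y ∈ B1 → e ∈ F ∧ col e = col s(x, y) := by
      intro y
      by_cases hy : y ∈ B1
      · obtain ⟨e, he, hce⟩ := (Finset.mem_filter.1 hy).2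
        exact ⟨e, fun _ => ⟨he, hce⟩⟩
      · exact ⟨s(x, y), fun hc => absurd hc hy⟩
    choose fe hfe using hex
    refine le_trans (Finset.card_le_card_of_injOn fe ?_ ?_) h.rot.few
    · intro y hy
      have hy0 : y ∈ B1 := hy
      obtain ⟨he, hce⟩ := hfe y hy0
      have hy1 := (Finset.mem_filter.1 (Finset.mem_filter.1 hy0).1).2
      refine Finset.mem_sdiff.2 ⟨he, fun hc => hFB _ hc ?_⟩
      rw [hce]
      exact hy1.2
    · intro y hy z hz hyz
      have hy0 : y ∈ B1 := hy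
      have hz0 : z ∈ B1 := hz
      obtain ⟨_, hce⟩ := hfe y hy0
      obtain ⟨_, hcz⟩ := hfe z hz0
      have hy1 := (Finset.mem_filter.1 (Finset.mem_filter.1 hy0).1).2
      have hz1 := (Finset.mem_filter.1 (Finset.mem_filter.1 hz0).1).2
      by_contra hne
      apply hcol x y z (Ne.symm hy1.1) (Ne.symm hz1.1) hne
      rw [← hce, ← hcz]
      exact congrArg col hyz
  -- second bad set
  set B2 := Y1.filter (fun y => s(fu y, y) ∉ pe P₀) with hB2
  have hB2c : B2.card ≤ j := by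
    refine le_trans (Finset.card_le_card_of_injOn (fun y => s(fu y, y)) ?_ ?_) h.rot.few
    · intro y hy
      have hy0 : y ∈ B2 := hy
      obtain ⟨hy1, hy2⟩ := Finset.mem_filter.1 hy0
      refine h.rot.new _ ?_ hy2
      rw [mem_pe]
      exact ⟨fA y, fu y, y, fD y, hf y hy1, rfl⟩
    · intro y hy z hz hyz
      have hy0 : y ∈ B2 := hy
      have hz0 : z ∈ B2 := hz
      have hy1 := (Finset.mem_filter.1 hy0).1
      have hz1 := (Finset.mem_filter.1 hz0).1
      exact ARotO_inj P (fA y) (fD y) (fA z) (fD z) (fu y) y (fu z) z hPnd (hf y hy1) (hf z hz1)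
        hyz
  refine ⟨(Y1 \ B1) \ B2, ?_, ?_, ?_⟩
  · exact (Finset.sdiff_subset.trans Finset.sdiff_subset).trans (Finset.filter_subset _ _)
  · have h1 := wd_filter col ω B hωB x Y
    rw [← hY1] at h1
    have h2 : (Y1 \ ((Y1 \ B1) \ B2)).card ≤ 2 * J := by
      have h3 : Y1 \ ((Y1 \ B1) \ B2) ⊆ B1 ∪ B2 := by
        intro y hy
        rw [Finset.mem_sdiff] at hy
        rw [Finset.mem_union]
        by_contra hc
        push Not at hc
        exact hy.2 (Finset.mem_sdiff.2 ⟨Finset.mem_sdiff.2 ⟨hy.1, hc.1⟩, hc.2⟩)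
      have h4 := Finset.card_le_card h3
      have h5 := Finset.card_union_le B1 B2
      omega
    have h3 := wd_drop col ω hω0 hω1 x Y1 ((Y1 \ B1) \ B2) (2 * J) h2
    push_cast at h3
    linarith
  · intro y hy
    obtain ⟨hy1, hyB2⟩ := Finset.mem_sdiff.1 hy
    obtain ⟨hy1, hyB1⟩ := Finset.mem_sdiff.1 hy1
    have hy2 := (Finset.mem_filter.1 hy1).2
    have hold : s(fu y, y) ∈ pe P₀ := by
      by_contra hc
      exact hyB2 (Finset.mem_filter.2 ⟨hy1, hc⟩)
    have hnew : ∀ e ∈ F, col e ≠ col s(x, y) := by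
      intro e he hc
      exact hyB1 (Finset.mem_filter.2 ⟨hy1, e, he, hc⟩)
    refine ⟨Ne.symm hy2.1, hy2.2, ?_⟩
    have hP := hf y hy1
    have hR := h
    rw [hP] at hR
    have hx' := hx
    rw [hP] at hx'
    rcases rotZ_step col B Z P₀ F₀ j F (fA y) (fD y) (fu y) y x hP₀ hFB hR hx' hy2.2 hnew hold
      (hYZ y (Finset.mem_filter.1 hy1).1) with
      hs | ⟨F', hF'⟩
    · exact absurd hs hns
    · exact ⟨fu y, _, F', hold, by simp, hF'⟩

end Pool.Agent.W_cd7020_h81c
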