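import Pool.Agent.W_cd7020_h81c.ARotO
import Pool.Agent.W_cd7020_h81c.ARotE

/-!
# Expansion of the set of first vertices (with weights and protected vertices)
-/

set_option autoImplicit false

namespace Pool.Agent.W_cd7020_h81c

open Finset Pool.Agent.W_cd7020_h81 Pool.Agent.W_cd7020_h81b

variable {V κ : Type*} [DecidableEq V] [DecidableEq κ] [Fintype V]

/-- Adapt `rot_expand` (file `W_cd7020_h81b/RotX.lean`): replace the numbers of vertices joined in a
colour of `B` by weights, `|B|` by `k`, `RotB_options` by `optionsZ`, `RotB_exp` by `wd_exp`. -/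
theorem rotZ_expand (col : Sym2 V → κ) (hcol : Proper col) (B : Finset κ) (ω : κ → ℝ)
    (hω0 : ∀ k, 0 ≤ ω k) (hω1 : ∀ k, ω k ≤ 1) (hωB : ∀ k, k ∉ B → ω k = 0) (Z : Finset V)
    (k a : ℝ) (ha : 0 ≤ a) (hB : UMix col ω k a) (P₀ : List V) (F₀ : Finset (Sym2 V))
    (hP₀ : P₀.Nodup) (hF : ∀ e ∈ F₀, e ∈ pe P₀) (hFr : Rb col F₀) (hFB : ∀ e ∈ F₀, col e ∉ B)
    (J : ℕ) (d : ℝ) (hJ : Fintype.card V ≤ 2 ^ J) (Gd Y : Finset V) (x₀ : V)
    (hx₀ : P₀.head? = some x₀) (hx₀G : x₀ ∈ Gd) (hY : ∀ y ∈ Y, y ∈ P₀) (hYZ : ∀ y ∈ Y, y ∉ Z)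
    (hYG : ∀ y ∈ Y, ∀ x, s(x, y) ∈ pe P₀ → x ∈ Gd)
    (hd : ∀ x ∈ Gd, d + 2 * J ≤ wd col ω x Y) (hd0 : 0 < d) (had : 4 * a ≤ d) (hdk : d ≤ k) :
    SucZ col B Z P₀ F₀ J ∨
      ∃ X : Finset V, d * Fintype.card V ≤ 4 * k * X.card ∧
        ∀ x ∈ X, x ∈ Gd ∧ ∃ P F, RotZ col B Z P₀ F₀ J P F ∧ P.head? = some x := by
  classical
  by_cases hSJ : SucZ col B Z P₀ F₀ J
  · exact Or.inl hSJ
  right
  have hk0 : (0 : ℝ) ≤ k := hd0.le.trans hdk
  have key : ∀ j : ℕ, j ≤ J → ∃ X : Finset V,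
      (d * Fintype.card V ≤ 4 * k * X.card ∨ 2 ^ j ≤ X.card) ∧
        ∀ x ∈ X, x ∈ Gd ∧ ∃ P F, RotZ col B Z P₀ F₀ j P F ∧ P.head? = some x := by
    intro j
    induction j with
    | zero =>
      intro _
      refine ⟨{x₀}, Or.inr (by simp), ?_⟩
      intro x hx
      rw [Finset.mem_singleton] at hx
      subst hx
      exact ⟨hx₀G, P₀, F₀, RotZ_refl col B Z P₀ F₀ hF hFr 0, hx₀⟩
    | succ j ih =>
      intro hj
      obtain ⟨X, hX1, hX2⟩ := ih (by omega)
      rcases hX1 with hX1 | hX1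
      · refine ⟨X, Or.inl hX1, ?_⟩
        intro x hx
        obtain ⟨h1, P, F, h2, h3⟩ := hX2 x hx
        exact ⟨h1, P, F, RotZ_mono col B Z P₀ P F₀ F j (j + 1) (by omega) h2, h3⟩
      · have hns : ¬ SucZ col B Z P₀ F₀ (j + 1) := by
          rintro ⟨P, F, h1, h2, h3, h4, h5, h6, h7, h8⟩
          exact hSJ ⟨P, F, h1, h2, h3, h4, h5, h6, h7.trans hj, h8⟩
        have hO : ∀ x : V, ∃ O : Finset V, x ∈ X → O ⊆ Y ∧ d ≤ wd col ω x O ∧
            ∀ y ∈ O, x ≠ y ∧ col s(x, y) ∈ B ∧ ∃ u P' F', s(u, y) ∈ pe P₀ ∧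
              P'.head? = some u ∧ RotZ col B Z P₀ F₀ (j + 1) P' F' := by
          intro x
          by_cases hx : x ∈ X
          · obtain ⟨h1, P, F, h2, h3⟩ := hX2 x hx
            obtain ⟨O, hO⟩ := optionsZ col hcol B ω hω0 hω1 hωB Z P₀ F₀ hP₀ hFB J j d
              (by omega) Y hY hYZ P F x h3 h2 (hd x h1) hns
            exact ⟨O, fun _ => hO⟩
          · exact ⟨∅, fun hc => absurd hc hx⟩
        choose O hO using hO
        set N := X.biUnion O with hN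
        have hNu : ∀ y : V, ∃ u : V, y ∈ N → s(u, y) ∈ pe P₀ ∧ u ∈ Gd ∧
            ∃ P F, RotZ col B Z P₀ F₀ (j + 1) P F ∧ P.head? = some u := by
          intro y
          by_cases hy : y ∈ N
          · obtain ⟨x, hx, hyx⟩ := Finset.mem_biUnion.1 hy
            obtain ⟨hOY, _, hO3⟩ := hO x hx
            obtain ⟨_, _, u, P', F', hu, hPh, hR⟩ := hO3 y hyx
            exact ⟨u, fun _ => ⟨hu, hYG y (hOY hyx) u hu, P', F', hR, hPh⟩⟩
          · exact ⟨y, fun hc => absurd hc hy⟩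
        choose u hu using hNu
        have hcard : N.card ≤ 2 * (N.image u).card := by
          apply Finset.card_le_mul_card_image
          intro v _
          refine le_trans (Finset.card_le_card_of_injOn (fun y => s(v, y)) ?_ ?_)
            (pe_deg P₀ hP₀ v)
          · intro y hy
            have hy0 : y ∈ N.filter (fun y => u y = v) := hy
            obtain ⟨hy1, hy2⟩ := Finset.mem_filter.1 hy0
            have h1 := (hu y hy1).1
            rw [hy2] at h1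
            change s(v, y) ∈ (pe P₀).toFinset.filter (fun e => v ∈ e)
            exact Finset.mem_filter.2 ⟨List.mem_toFinset.2 h1, Sym2.mem_mk_left v y⟩
          · intro y _ z _ hyz
            exact Sym2.congr_right.1 hyz
        have hexp : ∀ x ∈ X, d ≤ wd col ω x N := by
          intro x hx
          obtain ⟨_, hO2, _⟩ := hO x hx
          exact hO2.trans (wd_mono col ω ω hω0 (fun _ => le_rfl) x (O x) N
            (Finset.subset_biUnion_of_mem O hx))
        refine ⟨N.image u, ?_, ?_⟩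
        · rcases wd_exp col ω k a hk0 ha hB X N d hd0 had hexp with h1 | h1
          · left
            refine h1.trans ?_
            have h2 : (N.card : ℝ) ≤ 2 * (N.image u).card := by exact_mod_cast hcard
            have h3 : 2 * k * N.card ≤ 2 * k * (2 * (N.image u).card) :=
              mul_le_mul_of_nonneg_left h2 (by linarith)
            linarith
          · right
            have h2 : 2 ^ (j + 1) = 2 * 2 ^ j := by ring
            omega
        · intro x hx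
          obtain ⟨y, hy, rfl⟩ := Finset.mem_image.1 hx
          exact (hu y hy).2
  obtain ⟨X, hX1, hX2⟩ := key J le_rfl
  refine ⟨X, ?_, hX2⟩
  rcases hX1 with hX1 | hX1
  · exact hX1
  · have h1 : (Fintype.card V : ℝ) ≤ X.card := by exact_mod_cast hJ.trans hX1
    have h3 : d * Fintype.card V ≤ k * X.card :=
      mul_le_mul hdk h1 (by positivity) hk0
    have h4 : (0 : ℝ) ≤ k * X.card := mul_nonneg hk0 (Nat.cast_nonneg _)
    linarith

/-- Unrestricted rotations: `rotZ_expand` with `Gd = U`, `Y = U \ Z` and `d = k / 2`; compare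
`free_expand` (file `W_cd7020_h81b/ClosF.lean`). `k / 2 + 2 J ≤ 5 / 8 k` as `16 J ≤ k`. The result is
an improvement or a set `X` with `n ≤ 8 |X|`. -/
theorem freeZ_expand (col : Sym2 V → κ) (hcol : Proper col) (U : Finset V) (B : Finset κ)
    (ω : κ → ℝ) (hω0 : ∀ k, 0 ≤ ω k) (hω1 : ∀ k, ω k ≤ 1) (hωB : ∀ k, k ∉ B → ω k = 0)
    (Z : Finset V) (k a : ℝ) (ha : 0 ≤ a) (hB : UMix col ω k a) (P₀ : List V)
    (F₀ : Finset (Sym2 V)) (hP₀ : P₀.Nodup) (hPU : ∀ v, v ∈ P₀ ↔ v ∈ U) (hne : P₀ ≠ [])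
    (hF : ∀ e ∈ F₀, e ∈ pe P₀) (hFr : Rb col F₀) (hFB : ∀ e ∈ F₀, col e ∉ B) (J : ℕ)
    (hJ1 : 1 ≤ J) (hJ : Fintype.card V ≤ 2 ^ J) (hdeg : ∀ x ∈ U, 5 / 8 * k ≤ wd col ω x (U \ Z))
    (hk : 16 * (J : ℝ) ≤ k) (hak : 16 * a ≤ k) :
    SucZ col B Z P₀ F₀ J ∨
      ∃ X : Finset V, Fintype.card V ≤ 8 * X.card ∧
        ∀ x ∈ X, x ∈ U ∧ ∃ P F, RotZ col B Z P₀ F₀ J P F ∧ P.head? = some x := by
  obtain ⟨x₀, hx₀⟩ : ∃ x₀, P₀.head? = some x₀ := by
    cases P₀ with
    | nil => exact absurd rfl hne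
    | cons x l => exact ⟨x, rfl⟩
  have hx₀P : x₀ ∈ P₀ := List.mem_of_mem_head? hx₀
  have hJR : (1 : ℝ) ≤ J := by exact_mod_cast hJ1
  have hk0 : 0 < k := by linarith
  rcases rotZ_expand col hcol B ω hω0 hω1 hωB Z k a ha hB P₀ F₀ hP₀ hF hFr hFB J (k / 2) hJ U
    (U \ Z) x₀ hx₀ ((hPU x₀).1 hx₀P) (fun y hy => (hPU y).2 (Finset.mem_sdiff.1 hy).1)
    (fun y hy => (Finset.mem_sdiff.1 hy).2)
    (fun y _ x hx => (hPU x).1 (Pe_mem P₀ _ hx x (Sym2.mem_mk_left x y)))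
    (fun x hx => by
      have h1 := hdeg x hx
      linarith)
    (by linarith) (by linarith) (by linarith) with h | ⟨X, hX1, hX2⟩
  · exact Or.inl h
  · refine Or.inr ⟨X, ?_, hX2⟩
    have h1 : k * Fintype.card V ≤ k * (8 * X.card) := by linarith
    have h3 : (Fintype.card V : ℝ) ≤ 8 * X.card := le_of_mul_le_mul_left h1 hk0
    exact_mod_cast h3

end Pool.Agent.W_cd7020_h81c
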