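import Pool.Agent.W_cd7020_h81c.ARotX

/-!
# The first two phases (with weights and protected vertices)
-/

set_option autoImplicit false

namespace Pool.Agent.W_cd7020_h81c

open Finset Pool.Agent.W_cd7020_h81 Pool.Agent.W_cd7020_h81b

variable {V κ : Type*} [DecidableEq V] [DecidableEq κ] [Fintype V]

/-- Adapt `two_phases` (file `W_cd7020_h81b/ClosT.lean`). First `freeZ_expand` for `Q.reverse` with the
colours `B 0 ∪ K`; choose a reachable list whose first vertex is not in `Bad₃`; its reverse is `Q₁`,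
the edges `F₁`. Then `freeZ_expand` for `Q₁`, `F₁` with the colours `B 1 ∪ K'`, where `K'` is `K` without
the at most `J` colours of the edges of `F₁ \ E` (`wd_colours`: the weights drop by at most
`J ≤ k / 8`), choose a first vertex not in `Bad₂`. `8 |Bad| < n`. -/
theorem two_phasesZ (col : Sym2 V → κ) (hcol : Proper col) (U : Finset V) (E : Finset (Sym2 V))
    (Q : List V) (hQ : Q.Nodup) (hQU : ∀ v, v ∈ Q ↔ v ∈ U) (hne : Q ≠ [])
    (hEQ : ∀ e ∈ E, e ∈ pe Q) (hr : Rb col E) (B : Fin 5 → Finset κ) (K : Finset κ) (β k a : ℝ)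
    (ha : 0 ≤ a) (hβ0 : 0 ≤ β) (hβ1 : β ≤ 1) (hmix : ∀ i, UMix col (pw (B i) K β) k a)
    (Z : Finset V) (J : ℕ) (hJ1 : 1 ≤ J) (hJ : Fintype.card V ≤ 2 ^ J)
    (hBE : ∀ i, ∀ e ∈ E, col e ∉ B i) (hKE : ∀ e ∈ E, col e ∉ K)
    (hBB : ∀ i j, i ≠ j → Disjoint (B i) (B j)) (hBK : ∀ i, Disjoint (B i) K)
    (hdeg : ∀ i, ∀ x ∈ U, 3 / 4 * k ≤ wd col (pw (B i) K β) x (U \ Z))
    (hk : 16 * (J : ℝ) ≤ k) (hak : 16 * a ≤ k)
    (Bad₂ Bad₃ : Finset V) (hB₂ : 8 * Bad₂.card < Fintype.card V)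
    (hB₃ : 8 * Bad₃.card < Fintype.card V) :
    GoalZ col U E B K Z J ∨
      ∃ P F x₀ y₀, P.Perm Q ∧ (∀ e ∈ F, e ∈ pe P) ∧ F.card = E.card ∧ Rb col F ∧
        (∀ e ∈ F, e ∉ E → (col e ∈ B 0 ∨ col e ∈ B 1) ∨ col e ∈ K) ∧
        (∀ i, (F.filter (fun e => col e ∈ B i)).card ≤ J) ∧
        (F.filter (fun e => col e ∈ K)).card ≤ 2 * J ∧
        ((pe Q).toFinset \ (pe P).toFinset).card ≤ 2 * J ∧
        (∀ e ∈ E, e ∉ F → ∃ y ∈ e, y ∉ Z) ∧
        P.head? = some x₀ ∧ x₀ ∉ Bad₂ ∧ P.getLast? = some y₀ ∧ y₀ ∉ Bad₃ := by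
  have hpick : ∀ X Bad : Finset V, Fintype.card V ≤ 8 * X.card →
      8 * Bad.card < Fintype.card V → ∃ x ∈ X, x ∉ Bad := by
    intro X Bad h1 h2
    by_contra hcon
    push Not at hcon
    have := Finset.card_le_card (fun x hx => hcon x hx : X ⊆ Bad)
    omega
  have hJ0 : (1 : ℝ) ≤ J := by exact_mod_cast hJ1
  have hk0 : 0 ≤ k := by linarith
  have hQr : Q.reverse.Nodup := List.nodup_reverse.2 hQ
  have hdisj : ∀ i j, i ≠ j → ∀ k, k ∈ B i → k ∉ B j := fun i j hij k hki hkj =>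
    Finset.disjoint_left.1 (hBB i j hij) hki hkj
  have hdK : ∀ i k, k ∈ B i → k ∉ K := fun i k hki hkK =>
    Finset.disjoint_left.1 (hBK i) hki hkK
  rcases freeZ_expand col hcol U (B 0 ∪ K) (pw (B 0) K β) (pw_nonneg _ _ _ hβ0)
      (pw_le_one _ _ _ hβ1) (pw_zero _ _ _) Z k a ha (hmix 0) Q.reverse E hQr
      (fun v => by rw [List.mem_reverse]; exact hQU v) (by simpa using hne)
      (fun e he => (mem_pe_reverse Q e).2 (hEQ e he)) hr
      (fun e he h => (Finset.mem_union.1 h).elim (hBE 0 e he) (hKE e he)) J hJ1 hJ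
      (fun x hx => by have := hdeg 0 x hx; linarith) hk hak
    with hs | ⟨X, hX, hXr⟩
  · left
    obtain ⟨P, F, hPp, -, hFP, hFc, hFr, hFB, hFf, hFk⟩ := hs
    have hcnt : ∀ C : Finset κ, (∀ e ∈ E, col e ∉ C) →
        (F.filter (fun e => col e ∈ C)).card ≤ J := by
      intro C hC
      refine (Finset.card_le_card ?_).trans hFf
      intro e he
      obtain ⟨he1, he2⟩ := Finset.mem_filter.1 he
      exact Finset.mem_sdiff.2 ⟨he1, fun h => hC e h he2⟩
    refine ⟨F, ⟨P, hPp.nodup_iff.2 hQr, fun v => ?_, fun e he => pe_sub_ce P e (hFP e he)⟩, hFc, hFr,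
      fun e he hne => ?_, fun i => hcnt (B i) (hBE i), (hcnt K hKE).trans (by omega), hFk⟩
    · rw [hPp.mem_iff, List.mem_reverse]
      exact hQU v
    · exact (Finset.mem_union.1 (hFB e he hne)).imp (fun h => ⟨0, h⟩) id
  obtain ⟨y₀, hy₀X, hy₀B⟩ := hpick X Bad₃ hX hB₃
  obtain ⟨-, P₁, F₁, hR₁, hh₁⟩ := hXr y₀ hy₀X
  have hP₁ : P₁.Nodup := hR₁.rot.perm.nodup_iff.2 hQr
  have hQ₁ : P₁.reverse.Nodup := List.nodup_reverse.2 hP₁
  have hQ₁U : ∀ v, v ∈ P₁.reverse ↔ v ∈ U := by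
    intro v
    rw [List.mem_reverse, hR₁.rot.perm.mem_iff, List.mem_reverse]
    exact hQU v
  have hQ₁ne : P₁.reverse ≠ [] := by
    intro h
    rw [List.reverse_eq_nil_iff] at h
    rw [h] at hh₁
    simp at hh₁
  have hF₁B : ∀ i, i ≠ 0 → ∀ e ∈ F₁, col e ∉ B i := by
    intro i hi e he h'
    by_cases h : e ∈ E
    · exact hBE i e h h'
    · rcases Finset.mem_union.1 (hR₁.rot.cols e he h) with h2 | h2
      · exact hdisj 0 i (Ne.symm hi) _ h2 h'
      · exact hdK i _ h' h2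
  set G : Finset κ := (F₁ \ E).image col with hG
  set K' : Finset κ := K \ G with hK'
  have hK'K : K' ⊆ K := Finset.sdiff_subset
  have hGJ : G.card ≤ J := Finset.card_image_le.trans hR₁.rot.few
  have hF₁K' : ∀ e ∈ F₁, col e ∉ K' := by
    intro e he h'
    rw [hK', Finset.mem_sdiff] at h'
    by_cases h : e ∈ E
    · exact hKE e h h'.1
    · exact h'.2 (Finset.mem_image.2 ⟨e, Finset.mem_sdiff.2 ⟨he, h⟩, rfl⟩)
  have hcount : ∀ (F : Finset (Sym2 V)), (∀ e ∈ F, e ∉ F₁ → col e ∈ B 1 ∪ K') →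
      (F \ F₁).card ≤ J → ∀ i, (F.filter (fun e => col e ∈ B i)).card ≤ J := by
    intro F hF1 hF2 i
    by_cases hi : i = 0
    · subst hi
      refine (Finset.card_le_card ?_).trans hR₁.rot.few
      intro e he
      obtain ⟨he1, he2⟩ := Finset.mem_filter.1 he
      refine Finset.mem_sdiff.2 ⟨?_, fun h => hBE 0 e h he2⟩
      by_contra h
      rcases Finset.mem_union.1 (hF1 e he1 h) with h2 | h2
      · exact hdisj 0 1 (by decide) _ he2 h2
      · exact hdK 0 _ he2 (hK'K h2)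
    · refine (Finset.card_le_card ?_).trans hF2
      intro e he
      obtain ⟨he1, he2⟩ := Finset.mem_filter.1 he
      exact Finset.mem_sdiff.2 ⟨he1, fun h => hF₁B i hi e h he2⟩
  have hcountK : ∀ (F : Finset (Sym2 V)), (F \ F₁).card ≤ J →
      (F.filter (fun e => col e ∈ K)).card ≤ 2 * J := by
    intro F hF2
    have hsub : F.filter (fun e => col e ∈ K) ⊆ (F₁ \ E) ∪ (F \ F₁) := by
      intro e he
      obtain ⟨he1, he2⟩ := Finset.mem_filter.1 he
      rw [Finset.mem_union, Finset.mem_sdiff, Finset.mem_sdiff]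
      by_cases h : e ∈ F₁
      · exact Or.inl ⟨h, fun h' => hKE e h' he2⟩
      · exact Or.inr ⟨he1, h⟩
    have h1 := Finset.card_le_card hsub
    have h2 := Finset.card_union_le (F₁ \ E) (F \ F₁)
    have h3 := hR₁.rot.few
    omega
  have hcols : ∀ (F : Finset (Sym2 V)), (∀ e ∈ F, e ∉ F₁ → col e ∈ B 1 ∪ K') →
      ∀ e ∈ F, e ∉ E → (col e ∈ B 0 ∨ col e ∈ B 1) ∨ col e ∈ K := by
    intro F hF1 e he hne
    by_cases h : e ∈ F₁
    · exact (Finset.mem_union.1 (hR₁.rot.cols e h hne)).imp Or.inl id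
    · exact (Finset.mem_union.1 (hF1 e he h)).imp Or.inr (fun h2 => hK'K h2)
  have hkeep : ∀ (F : Finset (Sym2 V)), (∀ e ∈ F₁, e ∉ F → ∃ y ∈ e, y ∉ Z) →
      ∀ e ∈ E, e ∉ F → ∃ y ∈ e, y ∉ Z := by
    intro F hF e he he'
    by_cases h : e ∈ F₁
    · exact hF e h he'
    · exact hR₁.keep e he h
  have hdeg' : ∀ x ∈ U, 5 / 8 * k ≤ wd col (pw (B 1) K' β) x (U \ Z) := by
    intro x hx
    have h1 := hdeg 1 x hx
    have h2 := wd_colours col hcol (B 1) (B 1) K K' β hβ0 hβ1 (Finset.Subset.refl _) hK'K J (by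
      refine (Finset.card_le_card ?_).trans hGJ
      intro c hc
      rw [Finset.mem_sdiff, Finset.mem_union, Finset.mem_union, hK', Finset.mem_sdiff] at hc
      by_contra h
      rcases hc.1 with h3 | h3
      · exact hc.2 (Or.inl h3)
      · exact hc.2 (Or.inr ⟨h3, h⟩)) (hBK 1) x (U \ Z)
    linarith
  rcases freeZ_expand col hcol U (B 1 ∪ K') (pw (B 1) K' β) (pw_nonneg _ _ _ hβ0)
      (pw_le_one _ _ _ hβ1) (pw_zero _ _ _) Z k a ha
      (UMix_mono col (pw (B 1) K β) (pw (B 1) K' β) (pw_nonneg _ _ _ hβ0)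
        (pw_mono _ _ _ _ β hβ0 hβ1 (Finset.Subset.refl _) hK'K) k a a le_rfl (hmix 1))
      P₁.reverse F₁ hQ₁ hQ₁U hQ₁ne
      (fun e he => (mem_pe_reverse P₁ e).2 (hR₁.rot.real e he)) hR₁.rot.rb
      (fun e he h => (Finset.mem_union.1 h).elim (hF₁B 1 (by decide) e he) (hF₁K' e he)) J hJ1 hJ
      hdeg' hk hak
    with hs | ⟨X', hX', hXr'⟩
  · left
    obtain ⟨P, F, hPp, -, hFP, hFc, hFr, hFB, hFf, hFk⟩ := hs
    refine ⟨F, ⟨P, hPp.nodup_iff.2 hQ₁, fun v => ?_, fun e he => pe_sub_ce P e (hFP e he)⟩, ?_, hFr,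
      fun e he hne => ?_, hcount F hFB hFf, (hcountK F hFf).trans (by omega), hkeep F hFk⟩
    · rw [hPp.mem_iff]
      exact hQ₁U v
    · rw [hFc, hR₁.rot.card]
    · rcases hcols F hFB e he hne with (h | h) | h
      · exact Or.inl ⟨0, h⟩
      · exact Or.inl ⟨1, h⟩
      · exact Or.inr h
  obtain ⟨x₀, hx₀X, hx₀B⟩ := hpick X' Bad₂ hX' hB₂
  obtain ⟨-, P₂, F₂, hR₂, hh₂⟩ := hXr' x₀ hx₀X
  right
  refine ⟨P₂, F₂, x₀, y₀, ?_, hR₂.rot.real, ?_, hR₂.rot.rb, hcols F₂ hR₂.rot.cols,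
    hcount F₂ hR₂.rot.cols hR₂.rot.few, hcountK F₂ hR₂.rot.few, ?_, hkeep F₂ hR₂.keep, hh₂, hx₀B,
    ?_, hy₀B⟩
  · exact hR₂.rot.perm.trans
      ((List.reverse_perm P₁).trans (hR₁.rot.perm.trans (List.reverse_perm Q)))
  · rw [hR₂.rot.card, hR₁.rot.card]
  · have hsub : (pe Q).toFinset \ (pe P₂).toFinset ⊆
        ((pe Q.reverse).toFinset \ (pe P₁).toFinset) ∪
          ((pe P₁.reverse).toFinset \ (pe P₂).toFinset) := by
      intro e he
      rw [Finset.mem_sdiff, List.mem_toFinset, List.mem_toFinset] at he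
      rw [Finset.mem_union, Finset.mem_sdiff, Finset.mem_sdiff, List.mem_toFinset,
        List.mem_toFinset, List.mem_toFinset, List.mem_toFinset, mem_pe_reverse, mem_pe_reverse]
      by_cases h : e ∈ pe P₁
      · exact Or.inr ⟨h, he.2⟩
      · exact Or.inl ⟨he.1, h⟩
    have h1 := Finset.card_le_card hsub
    have h2 := Finset.card_union_le ((pe Q.reverse).toFinset \ (pe P₁).toFinset)
      ((pe P₁.reverse).toFinset \ (pe P₂).toFinset)
    have h3 := hR₁.rot.lost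
    have h4 := hR₂.rot.lost
    omega
  · rw [hR₂.rot.last, List.getLast?_reverse, hh₁]

end Pool.Agent.W_cd7020_h81c
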